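import Pool.Agent.Lib.MP_23b606_ag.T1.Defs

/-! Z/Crt: decomposition of a finite dimensional quotient at its points. -/

set_option autoImplicit false

open MvPolynomial

namespace T1

private theorem crt_prod {A ι : Type} [CommRing A] (I : Ideal A) (s : Finset ι) (a : ι → Ideal A) :
    ∏ x ∈ s, (I ⊔ a x) ≤ I ⊔ ∏ x ∈ s, a x := by
  classical
  induction s using Finset.induction with
  | empty => simp
  | insert x s hx ih =>
    rw [Finset.prod_insert hx, Finset.prod_insert hx]
    refine (Ideal.mul_mono_right ih).trans ?_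
    rw [Ideal.sup_mul]
    refine sup_le (Ideal.mul_le_left.trans le_sup_left) ?_
    have h1 : a x * (I ⊔ ∏ x ∈ s, a x) = a x * I ⊔ a x * ∏ x ∈ s, a x := Ideal.mul_sup _ _ _
    rw [h1]
    exact sup_le (Ideal.mul_le_right.trans le_sup_left) le_sup_right

private theorem crt_aeval {k σ : Type} [Field k] (x : σ → k) (p : MvPolynomial σ k) :
    aeval x p = eval x p := DFunLike.congr_fun (coe_aeval_eq_eval x) p

private theorem crt_maximal {k σ : Type} [Field k] (x : σ → k) :
    (RingHom.ker (eval x : MvPolynomial σ k →+* k)).IsMaximal :=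
  RingHom.ker_isMaximal_of_surjective _ fun c => ⟨C c, eval_C c⟩

private theorem crt_coprime {k σ : Type} [Field k] {x y : σ → k} (h : x ≠ y) :
    IsCoprime (RingHom.ker (eval x : MvPolynomial σ k →+* k))
      (RingHom.ker (eval y : MvPolynomial σ k →+* k)) := by
  rw [Ideal.isCoprime_iff_sup_eq]
  refine Ideal.IsMaximal.coprime_of_ne (crt_maximal x) (crt_maximal y) fun hxy => h ?_
  funext i
  have h1 : (X i - C (x i) : MvPolynomial σ k) ∈ RingHom.ker (eval x : MvPolynomial σ k →+* k) := by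
    rw [RingHom.mem_ker, map_sub, eval_X, eval_C, sub_self]
  rw [hxy, RingHom.mem_ker, map_sub, eval_X, eval_C, sub_eq_zero] at h1
  exact h1.symm

theorem finrank_le_card_mul {k : Type} [Field k] [IsAlgClosed k] {σ : Type} [Finite σ]
    (I : Ideal (MvPolynomial σ k)) [Module.Finite k (MvPolynomial σ k ⧸ I)]
    (S : Finset (σ → k)) (hS : ∀ x : σ → k, (∀ f ∈ I, eval x f = 0) → x ∈ S) (B : ℕ)
    (hB : ∀ x : σ → k, (∀ f ∈ I, eval x f = 0) → ∀ M : ℕ,
      Module.finrank k (MvPolynomial σ k ⧸ (I ⊔ RingHom.ker (eval x : MvPolynomial σ k →+* k) ^ M))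
        ≤ B) :
    Module.finrank k (MvPolynomial σ k ⧸ I) ≤ S.card * B := by
  classical
  obtain ⟨T, hT⟩ : ∃ T : Finset (σ → k), T = S.filter fun x => ∀ f ∈ I, eval x f = 0 :=
    ⟨_, rfl⟩
  have hTmem : ∀ x, x ∈ T ↔ ∀ f ∈ I, eval x f = 0 := by
    intro x
    rw [hT, Finset.mem_filter]
    exact ⟨fun h => h.2, fun h => ⟨hS x h, h⟩⟩
  obtain ⟨m, hm⟩ : ∃ m : (σ → k) → Ideal (MvPolynomial σ k),
      ∀ x, m x = RingHom.ker (eval x : MvPolynomial σ k →+* k) := ⟨_, fun x => rfl⟩
  -- the radical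
  have hrad : ⨅ x ∈ T, m x = I.radical := by
    rw [← vanishingIdeal_zeroLocus_eq_radical (K := k) I]
    ext f
    rw [mem_vanishingIdeal_iff, Ideal.mem_iInf]
    constructor
    · intro h x hx
      have h1 : x ∈ T := (hTmem x).2 fun p hp => by
        have := hx p hp
        rwa [crt_aeval] at this
      have h2 := h x
      rw [Ideal.mem_iInf] at h2
      have h3 := h2 h1
      rw [hm, RingHom.mem_ker] at h3
      rw [crt_aeval]
      exact h3
    · intro h x
      rw [Ideal.mem_iInf]
      intro hx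
      rw [hm, RingHom.mem_ker]
      have h1 := h x fun p hp => by
        rw [crt_aeval]
        exact (hTmem x).1 hx p hp
      rwa [crt_aeval] at h1
  obtain ⟨M, hM⟩ := Ideal.exists_radical_pow_le_of_fg I (IsNoetherian.noetherian _)
  obtain ⟨J, hJ⟩ : ∃ J : (σ → k) → Ideal (MvPolynomial σ k), ∀ x, J x = I ⊔ m x ^ M :=
    ⟨_, fun x => rfl⟩
  have hinf : ⨅ x ∈ T, J x ≤ I := by
    have h1 : (T : Set (σ → k)).Pairwise (Function.onFun IsCoprime J) := by
      intro x _ y _ hxy
      have h2 : IsCoprime (m x ^ M) (m y ^ M) := by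
        rw [hm, hm]
        exact (crt_coprime hxy).pow
      rw [Function.onFun, Ideal.isCoprime_iff_sup_eq, eq_top_iff,
        ← (Ideal.isCoprime_iff_sup_eq.1 h2), hJ, hJ]
      exact sup_le_sup le_sup_right le_sup_right
    rw [← Ideal.prod_eq_iInf_of_pairwise_isCoprime h1]
    have h2 : ∏ x ∈ T, J x ≤ I ⊔ ∏ x ∈ T, m x ^ M := by
      have h3 := crt_prod I T fun x => m x ^ M
      rwa [← Finset.prod_congr rfl fun x _ => hJ x] at h3
    refine h2.trans (sup_le le_rfl ?_)
    rw [Finset.prod_pow]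
    refine le_trans (Ideal.pow_right_mono ?_ M) hM
    rw [← hrad]
    refine le_iInf fun x => le_iInf fun hx => ?_
    exact Ideal.prod_le_inf.trans (Finset.inf_le hx)
  have hle : ∀ x, I ≤ J x := fun x => by
    rw [hJ]
    exact le_sup_left
  let Φ : (MvPolynomial σ k ⧸ I) →ₗ[k] (∀ x : T, MvPolynomial σ k ⧸ J x) :=
    LinearMap.pi fun x => (Ideal.Quotient.factorₐ k (hle x)).toLinearMap
  have hΦ : Function.Injective Φ := by
    rw [← LinearMap.ker_eq_bot, Submodule.eq_bot_iff]
    intro z hz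
    obtain ⟨f, rfl⟩ := Ideal.Quotient.mk_surjective z
    rw [LinearMap.mem_ker] at hz
    rw [Ideal.Quotient.eq_zero_iff_mem]
    apply hinf
    rw [Ideal.mem_iInf]
    intro x
    rw [Ideal.mem_iInf]
    intro hx
    have h1 := congrFun hz ⟨x, hx⟩
    have h2 : Φ (Ideal.Quotient.mk I f) ⟨x, hx⟩ = Ideal.Quotient.mk (J x) f := rfl
    rw [h2] at h1
    exact Ideal.Quotient.eq_zero_iff_mem.1 h1
  have hfin : ∀ x, Module.Finite k (MvPolynomial σ k ⧸ J x) := fun x =>
    Module.Finite.of_surjective (Ideal.Quotient.factorₐ k (hle x)).toLinearMap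
      (Ideal.Quotient.factor_surjective (hle x))
  calc Module.finrank k (MvPolynomial σ k ⧸ I)
      ≤ Module.finrank k (∀ x : T, MvPolynomial σ k ⧸ J x) :=
        LinearMap.finrank_le_finrank_of_injective hΦ
    _ = ∑ x : T, Module.finrank k (MvPolynomial σ k ⧸ J x) := Module.finrank_pi_fintype k
    _ ≤ ∑ _x : T, B := by
        refine Finset.sum_le_sum fun x _ => ?_
        have h1 := hB x ((hTmem x).1 x.2) M
        rw [hJ, hm]
        exact h1
    _ = T.card * B := by rw [Finset.sum_const, Finset.card_univ, Fintype.card_coe, smul_eq_mul]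
    _ ≤ S.card * B := by
        refine Nat.mul_le_mul_right _ ?_
        rw [hT]
        exact Finset.card_filter_le _ _

end T1
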