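import Pool.Agent.Lib.MP_23b606_ag.T1.Defs

/-! Z/Mon: the monomial complete intersection. -/

set_option autoImplicit false

open MvPolynomial

namespace T1

/-- The exponent vector of a tuple of bounded exponents. -/
private noncomputable def monE {n : ℕ} {δ : Fin n → ℕ} (b : ∀ i : Fin n, Fin (δ i)) :
    Fin n →₀ ℕ :=
  Finsupp.equivFunOnFinite.symm fun i => (b i : ℕ)

private theorem monE_apply {n : ℕ} {δ : Fin n → ℕ} (b : ∀ i : Fin n, Fin (δ i)) (i : Fin n) :
    monE b i = (b i : ℕ) := rfl

private theorem monE_inj {n : ℕ} {δ : Fin n → ℕ} {b b' : ∀ i : Fin n, Fin (δ i)}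
    (h : monE b = monE b') : b = b' := by
  funext i
  apply Fin.ext
  rw [← monE_apply, h, monE_apply]

private theorem mon_mem {k : Type} [Field k] (n : ℕ) (δ : Fin n → ℕ)
    (f : MvPolynomial (Fin n) k) :
    f ∈ Ideal.span (Set.range fun i : Fin n => (X i : MvPolynomial (Fin n) k) ^ δ i) ↔
      ∀ b : ∀ i : Fin n, Fin (δ i), coeff (monE b) f = 0 := by
  have h1 : (Set.range fun i : Fin n => (X i : MvPolynomial (Fin n) k) ^ δ i) =
      (fun s => monomial s (1 : k)) '' (Set.range fun i : Fin n => Finsupp.single i (δ i)) := by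
    rw [← Set.range_comp]
    congr 1
    funext i
    exact X_pow_eq_monomial
  rw [h1, mem_ideal_span_monomial_image]
  constructor
  · intro h b
    by_contra h2
    obtain ⟨s, ⟨i, rfl⟩, h3⟩ := h (monE b) (mem_support_iff.2 h2)
    have h4 := h3 i
    have h5 : (Finsupp.single i (δ i)) i = δ i := Finsupp.single_eq_same
    rw [h5, monE_apply] at h4
    exact absurd (b i).2 (not_lt.2 h4)
  · intro h m hm
    by_contra h2
    have h3 : ∀ i, m i < δ i := by
      intro i
      by_contra h4
      push Not at h4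
      refine h2 ⟨Finsupp.single i (δ i), ⟨i, rfl⟩, ?_⟩
      rw [Finsupp.single_le_iff]
      exact h4
    have h4 : monE (fun i => (⟨m i, h3 i⟩ : Fin (δ i))) = m := by
      ext i
      rw [monE_apply]
    have h5 := h fun i => (⟨m i, h3 i⟩ : Fin (δ i))
    rw [h4] at h5
    exact mem_support_iff.1 hm h5

theorem finrank_mon {k : Type} [Field k] (n : ℕ) (δ : Fin n → ℕ) :
    Module.finrank k (MvPolynomial (Fin n) k ⧸
      Ideal.span (Set.range fun i : Fin n => (X i : MvPolynomial (Fin n) k) ^ δ i)) = ∏ i, δ i := by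
  classical
  obtain ⟨I, hI⟩ : ∃ I : Ideal (MvPolynomial (Fin n) k),
      I = Ideal.span (Set.range fun i : Fin n => (X i : MvPolynomial (Fin n) k) ^ δ i) := ⟨_, rfl⟩
  rw [← hI]
  let φ : MvPolynomial (Fin n) k →ₗ[k] ((∀ i : Fin n, Fin (δ i)) → k) :=
    LinearMap.pi fun b => lcoeff k (monE b)
  have hφ : ∀ (f : MvPolynomial (Fin n) k) (b : ∀ i : Fin n, Fin (δ i)),
      φ f b = coeff (monE b) f := fun f b => rfl
  have hsurj : Function.Surjective φ := by
    intro c
    refine ⟨∑ b, monomial (monE b) (c b), ?_⟩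
    funext b'
    rw [hφ, coeff_sum, Finset.sum_eq_single b']
    · rw [coeff_monomial, if_pos rfl]
    · intro b _ hb
      rw [coeff_monomial, if_neg fun h => hb (monE_inj h)]
    · intro h
      exact absurd (Finset.mem_univ _) h
  have hker : I.restrictScalars k = LinearMap.ker φ := by
    ext f
    rw [Submodule.restrictScalars_mem, hI, mon_mem, LinearMap.mem_ker]
    constructor
    · intro h
      funext b
      exact h b
    · intro h b
      rw [← hφ, h]
      rfl
  have e1 : (MvPolynomial (Fin n) k ⧸ I) ≃ₗ[k] ((∀ i : Fin n, Fin (δ i)) → k) :=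
    (Submodule.Quotient.restrictScalarsEquiv k I).symm.trans
      ((Submodule.quotEquivOfEq _ _ hker).trans (φ.quotKerEquivOfSurjective hsurj))
  rw [e1.finrank_eq, Module.finrank_pi, Fintype.card_pi]
  exact Finset.prod_congr rfl fun i _ => Fintype.card_fin _

end T1
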