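import Pool.Agent.Lib.MP_23b606_ag.T1.Z.Cmp
import Pool.Agent.Lib.MP_23b606_ag.T1.Z.Mon

/-! Z/Bez: Bezout's theorem for square systems of forms with only the zero `0`. -/

set_option autoImplicit false

open MvPolynomial

namespace T1

theorem bezout {k : Type} [Field k] [IsAlgClosed k] {σ τ : Type} [Fintype σ] [Fintype τ]
    (hc : Fintype.card σ = Fintype.card τ) (H : τ → MvPolynomial σ k) (δ : τ → ℕ)
    (hδ : ∀ i, 1 ≤ δ i) (hH : ∀ i, (H i).IsHomogeneous (δ i))
    (h0 : ∀ x : σ → k, (∀ i, eval x (H i) = 0) → x = 0) (t : τ → k) :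
    Module.finrank k (MvPolynomial σ k ⧸ Ideal.span (Set.range fun i => H i - C (t i)))
      = ∏ i, δ i := by
  classical
  obtain ⟨n, hn⟩ : ∃ n, n = Fintype.card τ := ⟨_, rfl⟩
  let es : σ ≃ Fin n := Fintype.equivFinOfCardEq (hc.trans hn.symm)
  let et : τ ≃ Fin n := Fintype.equivFinOfCardEq hn.symm
  let H' : Fin n → MvPolynomial (Fin n) k := fun i => rename es (H (et.symm i))
  let t' : Fin n → k := fun i => t (et.symm i)
  have h1 : Module.finrank k (MvPolynomial (Fin n) k ⧸
      Ideal.span (Set.range fun i => H' i - C (t' i))) = ∏ i, δ (et.symm i) := by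
    rw [← finrank_mon (k := k) n fun i => δ (et.symm i)]
    have h2 : (Set.range fun i : Fin n => (X i : MvPolynomial (Fin n) k) ^ δ (et.symm i)) =
        Set.range fun i : Fin n => (X i : MvPolynomial (Fin n) k) ^ δ (et.symm i) -
          C ((0 : Fin n → k) i) := by
      congr 1
      funext i
      rw [Pi.zero_apply, C_0, sub_zero]
    rw [h2]
    refine finrank_eq_of_deg n H' (fun i => X i ^ δ (et.symm i)) (fun i => δ (et.symm i))
      (fun i => hδ _) (fun i => (hH _).rename_isHomogeneous) (fun i => ?_) (fun x hx => ?_)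
      (fun x hx => ?_) t' 0
    · exact isHomogeneous_X_pow i (δ (et.symm i))
    · have h3 : x ∘ es = 0 := by
        refine h0 _ fun i => ?_
        have h4 := hx (et i)
        simp only [H', Equiv.symm_apply_apply, eval_rename] at h4
        exact h4
      funext j
      have h4 := congrFun h3 (es.symm j)
      simp only [Function.comp_apply, Equiv.apply_symm_apply, Pi.zero_apply] at h4
      exact h4
    · funext j
      have h4 := hx j
      rw [map_pow, eval_X] at h4
      exact pow_eq_zero_iff (Nat.one_le_iff_ne_zero.1 (hδ _)) |>.1 h4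
  have h2 : ∏ i, δ (et.symm i) = ∏ i, δ i := Equiv.prod_comp et.symm δ
  rw [← h2, ← h1]
  have h3 : Ideal.span (Set.range fun i => H' i - C (t' i)) =
      (Ideal.span (Set.range fun i => H i - C (t i))).map
        ((renameEquiv k es : MvPolynomial σ k ≃ₐ[k] MvPolynomial (Fin n) k) :
          MvPolynomial σ k →+* MvPolynomial (Fin n) k) := by
    rw [Ideal.map_span]
    congr 1
    ext q
    simp only [Set.mem_range, Set.mem_image]
    constructor
    · rintro ⟨i, rfl⟩
      refine ⟨_, ⟨et.symm i, rfl⟩, ?_⟩
      show rename es (H (et.symm i) - C (t (et.symm i))) = _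
      rw [map_sub, rename_C]
    · rintro ⟨_, ⟨i, rfl⟩, rfl⟩
      refine ⟨et i, ?_⟩
      show rename es (H (et.symm (et i))) - C (t (et.symm (et i))) = rename es (H i - C (t i))
      rw [map_sub, rename_C, Equiv.symm_apply_apply]
  exact (Ideal.quotientEquivAlg _ _ (renameEquiv k es) h3).toLinearEquiv.finrank_eq

end T1
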