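import Pool.Agent.Lib.MP_23b606_ag.T1.Z.Bez

/-! Z/Loc: the local bound by initial forms. -/

set_option autoImplicit false

open MvPolynomial

namespace T1

/-- The translation `X s ↦ X s + p s`. -/
noncomputable def shf {k : Type} [Field k] {σ : Type} (p : σ → k) :
    MvPolynomial σ k →ₐ[k] MvPolynomial σ k :=
  aeval fun s => X s + C (p s)

section lemmas

variable {k : Type} [Field k] {σ : Type}

theorem shf_X (p : σ → k) (s : σ) : shf p (X s) = X s + C (p s) := aeval_X _ _

theorem shf_comp (p q : σ → k) (h : ∀ s, p s + q s = 0) : (shf p).comp (shf q) = AlgHom.id k _ := by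
  refine MvPolynomial.algHom_ext fun s => ?_
  rw [AlgHom.comp_apply, shf_X, map_add, shf_X, AlgHom.id_apply]
  have h1 : shf p (C (q s)) = C (q s) := (shf p).commutes (q s)
  rw [h1, add_assoc, ← C_add, h s, C_0, add_zero]

/-- The translation as an automorphism. -/
noncomputable def shfE (p : σ → k) : MvPolynomial σ k ≃ₐ[k] MvPolynomial σ k :=
  AlgEquiv.ofAlgHom (shf p) (shf (-p)) (shf_comp _ _ fun _ => add_neg_cancel _)
    (shf_comp _ _ fun _ => neg_add_cancel _)

theorem mem_mm {n : ℕ} {f : MvPolynomial σ k} :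
    f ∈ (Ideal.span (Set.range (X : σ → MvPolynomial σ k))) ^ n ↔
      ∀ d : σ →₀ ℕ, d.degree < n → coeff d f = 0 :=
  mem_pow_idealOfVars_iff' n f

theorem ker_eval_map (p : σ → k) :
    (RingHom.ker (eval p : MvPolynomial σ k →+* k)).map
      ((shfE p : MvPolynomial σ k ≃ₐ[k] MvPolynomial σ k) : MvPolynomial σ k →+* MvPolynomial σ k) =
      Ideal.span (Set.range (X : σ → MvPolynomial σ k)) := by
  apply le_antisymm
  · rw [Ideal.map_le_iff_le_comap]
    intro f hf
    rw [RingHom.mem_ker] at hf
    rw [Ideal.mem_comap]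
    rw [← pow_one (Ideal.span (Set.range (X : σ → MvPolynomial σ k))), mem_mm]
    intro d hd
    have hd0 : d = 0 := by
      have : d.degree = 0 := by omega
      exact (Finsupp.degree_eq_zero_iff d).1 this
    have h1 : ∀ g : MvPolynomial σ k, coeff 0 (shf p g) = eval p g := by
      intro g
      have h2 : (constantCoeff : MvPolynomial σ k →+* k).comp (shf p : MvPolynomial σ k →+* _) =
          eval p := by
        apply MvPolynomial.ringHom_ext
        · intro r
          have h3 : shf p (C r) = C r := (shf p).commutes r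
          simp [h3]
        · intro s
          simp [shf_X]
      exact congrArg (fun F : MvPolynomial σ k →+* k => F g) h2
    rw [hd0]
    exact (h1 f).trans hf
  · rw [Ideal.span_le]
    rintro _ ⟨s, rfl⟩
    have h1 : (X s - C (p s)) ∈ RingHom.ker (eval p : MvPolynomial σ k →+* k) := by
      rw [RingHom.mem_ker]
      simp
    have h2 := Ideal.mem_map_of_mem ((shfE p : MvPolynomial σ k ≃ₐ[k] MvPolynomial σ k) :
      MvPolynomial σ k →+* MvPolynomial σ k) h1
    have h3 : ((shfE p : MvPolynomial σ k ≃ₐ[k] MvPolynomial σ k) :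
      MvPolynomial σ k →+* MvPolynomial σ k) (X s - C (p s)) = X s := by
      show shf p (X s - C (p s)) = X s
      have h4 : shf p (C (p s)) = C (p s) := (shf p).commutes (p s)
      rw [map_sub, shf_X, h4, add_sub_cancel_right]
    rw [h3] at h2
    exact h2

theorem hc_mul {j e : ℕ} {u h : MvPolynomial σ k} (hh : h.IsHomogeneous e) :
    homogeneousComponent j (u * h) =
      if e ≤ j then homogeneousComponent (j - e) u * h else 0 := by
  classical
  let _ := MvPolynomial.gradedAlgebra (σ := σ) (R := k)
  have h1 : ∀ (f : MvPolynomial σ k) (i : ℕ),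
      (DirectSum.decompose (homogeneousSubmodule σ k) f i : MvPolynomial σ k) =
        homogeneousComponent i f := fun f i => decomposition.decompose'_apply f i
  have h2 := DirectSum.coe_decompose_mul_of_right_mem (𝒜 := homogeneousSubmodule σ k)
    (a := u) (b := h) (i := e) j hh
  rw [h1, h1] at h2
  exact h2

theorem hc_mem (j : ℕ) (f : MvPolynomial σ k) :
    homogeneousComponent j f ∈ (Ideal.span (Set.range (X : σ → MvPolynomial σ k))) ^ j := by
  classical
  rw [mem_mm]
  intro d hd
  rw [coeff_homogeneousComponent, if_neg hd.ne]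

theorem sub_hc_mem {j : ℕ} {f : MvPolynomial σ k}
    (hf : f ∈ (Ideal.span (Set.range (X : σ → MvPolynomial σ k))) ^ j) :
    f - homogeneousComponent j f ∈
      (Ideal.span (Set.range (X : σ → MvPolynomial σ k))) ^ (j + 1) := by
  classical
  rw [mem_mm] at hf ⊢
  intro d hd
  rw [coeff_sub, coeff_homogeneousComponent]
  by_cases h : d.degree = j
  · rw [if_pos h, sub_self]
  · rw [if_neg h, sub_zero]
    exact hf d (by omega)

end lemmas

theorem loc_bound {k : Type} [Field k] [IsAlgClosed k] {σ τ : Type} [Fintype σ] [Fintype τ]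
    (hc : Fintype.card σ = Fintype.card τ) (I : Ideal (MvPolynomial σ k)) (p : σ → k)
    (h : τ → MvPolynomial σ k) (ε : τ → ℕ) (hε : ∀ i, 1 ≤ ε i)
    (hh : ∀ i, (h i).IsHomogeneous (ε i))
    (h0 : ∀ x : σ → k, (∀ i, eval x (h i) = 0) → x = 0)
    (hg : ∀ i, ∃ g ∈ I, shf p g - h i ∈
      (Ideal.span (Set.range (X : σ → MvPolynomial σ k))) ^ (ε i + 1)) (M : ℕ) :
    Module.finrank k (MvPolynomial σ k ⧸ (I ⊔ RingHom.ker (eval p : MvPolynomial σ k →+* k) ^ M))
      ≤ ∏ i, ε i := by
  classical
  set mm : Ideal (MvPolynomial σ k) := Ideal.span (Set.range (X : σ → MvPolynomial σ k)) with hmm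
  let φ : MvPolynomial σ k →+* MvPolynomial σ k :=
    ((shfE p : MvPolynomial σ k ≃ₐ[k] MvPolynomial σ k) : MvPolynomial σ k →+* MvPolynomial σ k)
  set J : Ideal (MvPolynomial σ k) := I.map φ ⊔ mm ^ M with hJ
  have hJ' : J = (I ⊔ RingHom.ker (eval p : MvPolynomial σ k →+* k) ^ M).map φ := by
    rw [Ideal.map_sup, Ideal.map_pow, ker_eval_map]
  rw [(Ideal.quotientEquivAlg _ J (shfE p) hJ').toLinearEquiv.finrank_eq]
  -- a basis of monomials
  set Q : Ideal (MvPolynomial σ k) := Ideal.span (Set.range fun i => h i - C ((0 : τ → k) i)) with hQ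
  have hfin : Module.Finite k (MvPolynomial σ k ⧸ Q) := quot_finite h ε hε hh h0 0
  have hrank : Module.finrank k (MvPolynomial σ k ⧸ Q) = ∏ i, ε i := bezout hc h ε hε hh h0 0
  obtain ⟨κ, a, -, hspan, hli⟩ := exists_linearIndependent' k
    (fun d : σ →₀ ℕ => Ideal.Quotient.mk Q (monomial d (1 : k)))
  have htop : (⊤ : Submodule k (MvPolynomial σ k ⧸ Q)) ≤
      Submodule.span k (Set.range ((fun d : σ →₀ ℕ => Ideal.Quotient.mk Q (monomial d (1 : k))) ∘ a)) := by
    rw [hspan]
    intro z _
    obtain ⟨f, rfl⟩ := Ideal.Quotient.mk_surjective z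
    have h1 : Ideal.Quotient.mk Q f =
        ∑ d ∈ f.support, coeff d f • Ideal.Quotient.mk Q (monomial d (1 : k)) := by
      conv_lhs => rw [f.as_sum]
      rw [map_sum]
      refine Finset.sum_congr rfl fun d _ => ?_
      have h2 : monomial d (coeff d f) = (coeff d f) • monomial d (1 : k) := by
        rw [smul_monomial, smul_eq_mul, mul_one]
      rw [h2]
      exact map_smul (Ideal.Quotient.mkₐ k Q) _ _
    rw [h1]
    exact Submodule.sum_mem _ fun d _ => Submodule.smul_mem _ _ (Submodule.subset_span ⟨d, rfl⟩)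
  let b : Module.Basis κ k (MvPolynomial σ k ⧸ Q) := Module.Basis.mk hli htop
  have hb : ∀ i, b i = Ideal.Quotient.mk Q (monomial (a i) (1 : k)) := fun i => by
    rw [Module.Basis.mk_apply]; rfl
  have hκf : Finite κ := Module.Finite.finite_basis b
  have hκ : Fintype κ := Fintype.ofFinite κ
  have hcard : Fintype.card κ = ∏ i, ε i := by
    rw [← hrank, Module.finrank_eq_card_basis b]
  -- the span of the monomials and `J`
  set W : Submodule k (MvPolynomial σ k) :=
    Submodule.span k (Set.range fun i : κ => monomial (a i) (1 : k)) ⊔ J.restrictScalars k with hW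
  have hJW : ∀ f ∈ J, f ∈ W := fun f hf => Submodule.mem_sup_right hf
  have hmW : ∀ i : κ, monomial (a i) (1 : k) ∈ W := fun i =>
    Submodule.mem_sup_left (Submodule.subset_span ⟨i, rfl⟩)
  have main : ∀ n j : ℕ, M ≤ j + n → ∀ f ∈ mm ^ j, f ∈ W := by
    intro n
    induction n with
    | zero =>
      intro j hj f hf
      exact hJW f (Ideal.mem_sup_right (Ideal.pow_le_pow_right (by omega) hf))
    | succ n ih =>
      intro j hj f hf
      have ih' : ∀ f ∈ mm ^ (j + 1), f ∈ W := ih (j + 1) (by omega)
      have h1 : f = homogeneousComponent j f + (f - homogeneousComponent j f) := by ring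
      rw [h1]
      refine W.add_mem ?_ (ih' _ (sub_hc_mem hf))
      set g := homogeneousComponent j f with hgdef
      have h2 : g - ∑ i, b.repr (Ideal.Quotient.mk Q g) i • monomial (a i) (1 : k) ∈ Q := by
        rw [← Ideal.Quotient.eq_zero_iff_mem, map_sub, map_sum]
        have h3 := b.sum_repr (Ideal.Quotient.mk Q g)
        rw [sub_eq_zero]
        conv_lhs => rw [← h3]
        refine Finset.sum_congr rfl fun i _ => ?_
        rw [hb]
        exact (map_smul (Ideal.Quotient.mkₐ k Q) _ _).symm
      obtain ⟨u, hu⟩ := Ideal.mem_span_range_iff_exists_fun.1 h2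
      have h4 : g = ∑ i, b.repr (Ideal.Quotient.mk Q g) i • monomial (a i) (1 : k) +
          ∑ i, u i * h i := by
        have h5 : ∑ i, u i * (h i - C ((0 : τ → k) i)) = ∑ i, u i * h i := by
          refine Finset.sum_congr rfl fun i _ => ?_
          rw [Pi.zero_apply, C_0, sub_zero]
        rw [← h5, hu]
        ring
      have h6 : homogeneousComponent j g = g := by
        rw [hgdef]
        exact homogeneousComponent_eq_self (homogeneousComponent_isHomogeneous j f)
      rw [← h6, h4, map_add, map_sum, map_sum]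
      refine W.add_mem (W.sum_mem fun i _ => ?_) (W.sum_mem fun i _ => ?_)
      · rw [map_smul]
        refine W.smul_mem _ ?_
        rw [homogeneousComponent_of_mem (m := j)
          (isHomogeneous_monomial (1 : k) (rfl : (a i).degree = (a i).degree))]
        split_ifs
        · exact hmW i
        · exact W.zero_mem
      · rw [hc_mul (hh i)]
        split_ifs with hle
        · obtain ⟨g', hg', hr⟩ := hg i
          have h7 : homogeneousComponent (j - ε i) (u i) * h i =
              homogeneousComponent (j - ε i) (u i) * shf p g' -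
                homogeneousComponent (j - ε i) (u i) * (shf p g' - h i) := by ring
          rw [h7]
          refine W.sub_mem (hJW _ ?_) (ih' _ ?_)
          · exact Ideal.mul_mem_left _ _ (Ideal.mem_sup_left (Ideal.mem_map_of_mem φ hg'))
          · have h8 : j + 1 = (j - ε i) + (ε i + 1) := by omega
            rw [h8, pow_add]
            exact Ideal.mul_mem_mul (hc_mem _ _) hr
        · exact W.zero_mem
  have hall : ∀ f, f ∈ W := fun f => main M 0 (by omega) f (by rw [pow_zero, Ideal.one_eq_top]; trivial)
  -- the bound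
  have hsp : (⊤ : Submodule k (MvPolynomial σ k ⧸ J)) =
      Submodule.span k (Set.range fun i : κ => Ideal.Quotient.mk J (monomial (a i) (1 : k))) := by
    symm
    rw [eq_top_iff]
    intro z _
    obtain ⟨f, rfl⟩ := Ideal.Quotient.mk_surjective z
    obtain ⟨f1, hf1, f2, hf2, rfl⟩ := Submodule.mem_sup.1 (hall f)
    have h1 : Ideal.Quotient.mk J f2 = 0 := Ideal.Quotient.eq_zero_iff_mem.2 hf2
    rw [map_add, h1, add_zero]
    have h2 := Submodule.mem_map_of_mem (f := (Ideal.Quotient.mkₐ k J).toLinearMap) hf1
    rw [Submodule.map_span, ← Set.range_comp] at h2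
    exact h2
  rw [← finrank_top, hsp, ← hcard]
  exact finrank_range_le_card _

end T1
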