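import Pool.Agent.Lib.MP_23b606_ag.T1.Z.Pow

/-! Z/Fin: the quotient by `H - t` is finite dimensional, the zero set of `H - t` is finite. -/

set_option autoImplicit false

open MvPolynomial

namespace T1

/-- The part of degree `D` of a multiple of a homogeneous polynomial. -/
theorem fin_comp {k : Type} [Field k] {σ : Type} {H : MvPolynomial σ k} {δ : ℕ}
    (hH : H.IsHomogeneous δ) (D : ℕ) (c : MvPolynomial σ k) :
    ∃ c' : MvPolynomial σ k, (c' = 0 ∨ (δ ≤ D ∧ c'.totalDegree ≤ D - δ)) ∧
      homogeneousComponent D (c * H) = c' * H := by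
  classical
  refine ⟨∑ d ∈ Finset.range (c.totalDegree + 1),
    if D = d + δ then homogeneousComponent d c else 0, ?_, ?_⟩
  · by_cases hδ : δ ≤ D
    · right
      refine ⟨hδ, totalDegree_finsetSum_le fun d _ => ?_⟩
      split_ifs with h1
      · have h2 := (homogeneousComponent_isHomogeneous d c).totalDegree_le
        omega
      · rw [totalDegree_zero]
        exact Nat.zero_le _
    · left
      refine Finset.sum_eq_zero fun d _ => ?_
      rw [if_neg (by omega)]
  · conv_lhs => rw [← sum_homogeneousComponent c, Finset.sum_mul, map_sum]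
    rw [Finset.sum_mul]
    refine Finset.sum_congr rfl fun d _ => ?_
    have h1 : homogeneousComponent d c * H ∈ homogeneousSubmodule σ k (d + δ) :=
      (homogeneousComponent_isHomogeneous d c).mul hH
    rw [homogeneousComponent_of_mem h1]
    split_ifs
    · rfl
    · rw [zero_mul]

/-- A homogeneous element of the ideal is a combination with homogeneous coefficients. -/
theorem fin_repr {k : Type} [Field k] {σ τ : Type} [Fintype τ]
    {H : τ → MvPolynomial σ k} {δ : τ → ℕ} (hH : ∀ i, (H i).IsHomogeneous (δ i)) {D : ℕ}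
    {f : MvPolynomial σ k} (hf : f.IsHomogeneous D) (hm : f ∈ Ideal.span (Set.range H)) :
    ∃ c : τ → MvPolynomial σ k, (∀ i, c i = 0 ∨ (δ i ≤ D ∧ (c i).totalDegree ≤ D - δ i)) ∧
      ∑ i, c i * H i = f := by
  obtain ⟨c, hc⟩ := (Ideal.mem_span_range_iff_exists_fun (R := MvPolynomial σ k)).1 hm
  choose c' h1 h2 using fun i => fin_comp (hH i) D (c i)
  refine ⟨c', h1, ?_⟩
  have h3 := congrArg (homogeneousComponent D) hc
  rw [map_sum, homogeneousComponent_of_mem (show f ∈ homogeneousSubmodule σ k D from hf),
    if_pos rfl] at h3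
  rw [← h3]
  exact Finset.sum_congr rfl fun i _ => (h2 i).symm

theorem quot_finite {k : Type} [Field k] [IsAlgClosed k] {σ τ : Type} [Finite σ] [Finite τ]
    (H : τ → MvPolynomial σ k) (δ : τ → ℕ) (hδ : ∀ i, 1 ≤ δ i)
    (hH : ∀ i, (H i).IsHomogeneous (δ i))
    (h0 : ∀ x : σ → k, (∀ i, eval x (H i) = 0) → x = 0) (t : τ → k) :
    Module.Finite k (MvPolynomial σ k ⧸ Ideal.span (Set.range fun i => H i - C (t i))) := by
  classical
  have : Fintype τ := Fintype.ofFinite τ
  obtain ⟨N, -, hN⟩ := pow_mem H h0
  set I := Ideal.span (Set.range fun i => H i - C (t i)) with hI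
  choose c hc hcs using fun s => fin_repr hH ((isHomogeneous_X k s).pow N) (hN s)
  let B : Set (MvPolynomial σ k ⧸ I) :=
    (fun a => Ideal.Quotient.mk I (monomial a (1 : k))) '' {a : σ →₀ ℕ | ∀ s, a s < N}
  have hBf : B.Finite := by
    refine Set.Finite.image _ ?_
    refine (Set.finite_Icc (0 : σ →₀ ℕ) (Finsupp.equivFunOnFinite.symm fun _ => N)).subset ?_
    intro a ha
    exact ⟨zero_le, fun s => (ha s).le⟩
  have hHt : ∀ i, Ideal.Quotient.mk I (H i) = Ideal.Quotient.mk I (C (t i)) := fun i =>
    (Ideal.Quotient.eq).2 (Ideal.subset_span ⟨i, rfl⟩)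
  have key : ∀ (D : ℕ) (f : MvPolynomial σ k), f.totalDegree < D →
      Ideal.Quotient.mk I f ∈ Submodule.span k B := by
    intro D
    induction D with
    | zero => intro f hf; exact absurd hf (Nat.not_lt_zero _)
    | succ D ih =>
      intro f hf
      rw [f.as_sum, map_sum]
      refine Submodule.sum_mem _ fun a ha => ?_
      have had : (a.sum fun _ e => e) ≤ D := (le_totalDegree ha).trans (Nat.lt_succ_iff.1 hf)
      have e1 : Ideal.Quotient.mk I (monomial a (coeff a f)) =
          coeff a f • Ideal.Quotient.mk I (monomial a (1 : k)) := by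
        rw [← mul_one (coeff a f), ← smul_eq_mul, ← smul_monomial, smul_eq_mul, mul_one]
        rfl
      rw [e1]
      refine Submodule.smul_mem _ _ ?_
      by_cases hlt : ∀ s, a s < N
      · exact Submodule.subset_span ⟨a, hlt, rfl⟩
      · push Not at hlt
        obtain ⟨s, hs⟩ := hlt
        have hsa : Finsupp.single s N ≤ a := by
          rw [Finsupp.single_le_iff]
          exact hs
        set b := a - Finsupp.single s N with hb
        have hab : a = Finsupp.single s N + b := (add_tsub_cancel_of_le hsa).symm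
        have hsum : (a.sum fun _ e => e) = N + b.sum fun _ e => e := by
          rw [hab, Finsupp.sum_add_index' (fun _ => rfl) (fun _ _ _ => rfl),
            Finsupp.sum_single_index rfl]
        have e2 : (monomial a (1 : k)) = ∑ i, (monomial b (1 : k) * c s i) * H i := by
          have e3 : (monomial a (1 : k)) = monomial b (1 : k) * X s ^ N := by
            rw [X_pow_eq_monomial, monomial_mul, one_mul, add_comm b, ← hab]
          rw [e3, ← hcs s, Finset.mul_sum]
          exact Finset.sum_congr rfl fun i _ => (mul_assoc _ _ _).symm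
        rw [e2, map_sum]
        refine Submodule.sum_mem _ fun i _ => ?_
        have e4 : Ideal.Quotient.mk I (monomial b (1 : k) * c s i * H i) =
            t i • Ideal.Quotient.mk I (monomial b (1 : k) * c s i) := by
          rw [map_mul, hHt i, mul_comm, ← map_mul, C_mul']
          rfl
        rw [e4]
        refine Submodule.smul_mem _ _ ?_
        rcases hc s i with h1 | ⟨h1, h2⟩
        · rw [h1, mul_zero, map_zero]
          exact Submodule.zero_mem _
        · refine ih _ (lt_of_le_of_lt (totalDegree_mul _ _) ?_)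
          have h3 : (monomial b (1 : k)).totalDegree = b.sum fun _ e => e :=
            totalDegree_monomial _ one_ne_zero
          have h4 := hδ i
          omega
  refine Module.finite_def.2 (Submodule.fg_def.2 ⟨B, hBf, ?_⟩)
  rw [eq_top_iff]
  rintro x -
  obtain ⟨f, rfl⟩ := Ideal.Quotient.mk_surjective x
  exact key _ f (Nat.lt_succ_self _)

theorem zeros_finite {k : Type} [Field k] [IsAlgClosed k] {σ τ : Type} [Finite σ] [Finite τ]
    (H : τ → MvPolynomial σ k) (δ : τ → ℕ) (hδ : ∀ i, 1 ≤ δ i)
    (hH : ∀ i, (H i).IsHomogeneous (δ i))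
    (h0 : ∀ x : σ → k, (∀ i, eval x (H i) = 0) → x = 0) (t : τ → k) :
    {x : σ → k | ∀ i, eval x (H i) = t i}.Finite := by
  classical
  have hfin := quot_finite H δ hδ hH h0 t
  set I := Ideal.span (Set.range fun i => H i - C (t i)) with hI
  have hint : ∀ s : σ, IsIntegral k (Ideal.Quotient.mk I (X s)) := fun s =>
    IsIntegral.of_finite k _
  choose q hq hq0 using hint
  refine (Set.Finite.pi' fun s => (q s).rootSet_finite k).subset ?_
  intro x hx s
  have hker : ∀ f ∈ I, eval x f = 0 := by
    intro f hf
    have h1 : I ≤ RingHom.ker (eval x) := by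
      rw [hI, Ideal.span_le]
      rintro _ ⟨i, rfl⟩
      rw [SetLike.mem_coe, RingHom.mem_ker, map_sub, eval_C, hx i, sub_self]
    exact h1 hf
  let φ : MvPolynomial σ k ⧸ I →+* k := Ideal.Quotient.lift I (eval x) hker
  have h2 : φ.comp (algebraMap k (MvPolynomial σ k ⧸ I)) = RingHom.id k := by
    ext c
    change eval x (C c) = c
    rw [eval_C]
  have h3 : Polynomial.eval (x s) (q s) = 0 := by
    have h4 := congrArg φ (hq0 s)
    rw [map_zero, Polynomial.hom_eval₂, h2] at h4
    have h5 : φ (Ideal.Quotient.mk I (X s)) = x s := by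
      change eval x (X s) = x s
      rw [eval_X]
    rw [h5] at h4
    exact h4
  rw [Polynomial.mem_rootSet]
  refine ⟨(hq s).ne_zero, ?_⟩
  rw [Polynomial.coe_aeval_eq_eval]
  exact h3

end T1
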