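import Pool.Agent.Lib.MP_23b606_ag.T1.Z.Sub

/-! Z/KosB: the Koszul property lifts from a hyperplane. -/

set_option autoImplicit false

open MvPolynomial

namespace T1

section comp

variable {k : Type} [Field k] {σ : Type}

/-- The component of degree `D - a` (zero if `D < a`). -/
noncomputable def cp (D a : ℕ) : MvPolynomial σ k →ₗ[k] MvPolynomial σ k :=
  if a ≤ D then homogeneousComponent (D - a) else 0

theorem cp_of_le {D a : ℕ} (h : a ≤ D) (p : MvPolynomial σ k) :
    cp D a p = homogeneousComponent (D - a) p := by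
  rw [cp, if_pos h]

theorem cp_of_lt {D a : ℕ} (h : D < a) (p : MvPolynomial σ k) : cp D a p = 0 := by
  rw [cp, if_neg (not_le.2 h)]
  rfl

theorem cp_isHomogeneous (D a : ℕ) (p : MvPolynomial σ k) : (cp D a p).IsHomogeneous (D - a) := by
  by_cases h : a ≤ D
  · rw [cp_of_le h]
    exact homogeneousComponent_isHomogeneous _ _
  · rw [cp_of_lt (not_le.1 h)]
    exact isHomogeneous_zero _ _ _

theorem cp_of_hom {D a m : ℕ} {p : MvPolynomial σ k} (hp : p.IsHomogeneous m) :
    cp D a p = if m + a = D then p else 0 := by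
  by_cases h : a ≤ D
  · rw [cp_of_le h, homogeneousComponent_of_mem hp]
    by_cases h1 : m + a = D
    · rw [if_pos h1, if_pos (by omega)]
    · rw [if_neg h1, if_neg (by omega)]
  · rw [cp_of_lt (not_le.1 h), if_neg (by omega)]

theorem cp_mul {D a δ : ℕ} {H : MvPolynomial σ k} (hH : H.IsHomogeneous δ)
    (p : MvPolynomial σ k) : cp D a (p * H) = cp D (δ + a) p * H := by
  have h1 := sum_homogeneousComponent p
  conv_lhs => rw [← h1]
  conv_rhs => rw [← h1]
  rw [Finset.sum_mul, map_sum, map_sum, Finset.sum_mul]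
  refine Finset.sum_congr rfl fun i _ => ?_
  have h2 := homogeneousComponent_isHomogeneous i p
  rw [cp_of_hom (h2.mul hH), cp_of_hom h2]
  by_cases h3 : i + δ + a = D
  · rw [if_pos h3, if_pos (by omega)]
  · rw [if_neg h3, if_neg (by omega), zero_mul]

theorem cp_sum {a B : ℕ} {p : MvPolynomial σ k} (h : a + p.totalDegree < B) :
    ∑ D ∈ Finset.range B, cp D a p = p := by
  have h1 := sum_homogeneousComponent p
  conv_rhs => rw [← h1]
  have h2 : ∀ D ∈ Finset.range B, cp D a p =
      ∑ i ∈ Finset.range (p.totalDegree + 1), if i + a = D then homogeneousComponent i p else 0 := by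
    intro D _
    conv_lhs => rw [← h1]
    rw [map_sum]
    refine Finset.sum_congr rfl fun i _ => ?_
    exact cp_of_hom (homogeneousComponent_isHomogeneous i p)
  rw [Finset.sum_congr rfl h2, Finset.sum_comm]
  refine Finset.sum_congr rfl fun i hi => ?_
  rw [Finset.mem_range] at hi
  rw [Finset.sum_ite_eq, if_pos]
  rw [Finset.mem_range]
  omega

end comp

/-- Alternating matrices annihilate. -/
theorem alt_sum {R : Type} [CommRing R] {r : ℕ} (s : Fin r → Fin r → R) (h0 : ∀ i, s i i = 0)
    (h1 : ∀ i j, s i j = -s j i) (H : Fin r → R) : ∑ i, (∑ j, s i j * H j) * H i = 0 := by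
  classical
  have h2 : ∑ i, (∑ j, s i j * H j) * H i = ∑ x : Fin r × Fin r, s x.1 x.2 * H x.2 * H x.1 := by
    rw [Fintype.sum_prod_type]
    refine Finset.sum_congr rfl fun i _ => ?_
    rw [Finset.sum_mul]
  rw [h2]
  refine Finset.sum_involution (fun x _ => (x.2, x.1)) ?_ ?_ ?_ ?_
  · rintro ⟨i, j⟩ _
    show s i j * H j * H i + s j i * H i * H j = 0
    rw [h1 i j]
    ring
  · rintro ⟨i, j⟩ _ hne heq
    apply hne
    have : i = j := (congrArg Prod.fst heq).symm
    subst this
    show s i i * H i * H i = 0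
    rw [h0, zero_mul, zero_mul]
  · intro x _
    exact Finset.mem_univ _
  · intro x _
    rfl

/-- The homogeneous case. -/
theorem Kos.lift_hom {k : Type} [Field k] {n r : ℕ} (c : Fin n → k)
    (H : Fin r → MvPolynomial (Fin (n + 1)) k) (δ : Fin r → ℕ) (hδ : ∀ i, 1 ≤ δ i)
    (hH : ∀ i, (H i).IsHomogeneous (δ i)) (hK : Kos fun i => sub c (H i)) (D : ℕ) :
    ∀ g : Fin r → MvPolynomial (Fin (n + 1)) k, (∀ i, cp D (δ i) (g i) = g i) →
      ∑ i, g i * H i = 0 → ∃ s : Fin r → Fin r → MvPolynomial (Fin (n + 1)) k,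
        (∀ i, s i i = 0) ∧ (∀ i j, s i j = -s j i) ∧ ∀ i, g i = ∑ j, s i j * H j := by
  induction D with
  | zero =>
    intro g hg _
    refine ⟨fun _ _ => 0, fun _ => rfl, fun _ _ => by rw [neg_zero], fun i => ?_⟩
    rw [← hg i, cp_of_lt (hδ i)]
    simp
  | succ D ih =>
    intro g hg hsum
    obtain ⟨s', h0', h1', h2'⟩ := hK (fun i => sub c (g i)) (by
      have := congrArg (sub c) hsum
      rw [map_sum, map_zero] at this
      rw [← this]
      refine Finset.sum_congr rfl fun i _ => ?_
      rw [map_mul])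
    -- the lifted matrix
    have hker : ∀ i, ∃ q, g i - ∑ j, rename Fin.succ (s' i j) * H j = tht c * q := by
      intro i
      have h3 : g i - ∑ j, rename Fin.succ (s' i j) * H j ∈
          RingHom.ker (sub c : MvPolynomial (Fin (n + 1)) k →+* MvPolynomial (Fin n) k) := by
        rw [RingHom.mem_ker]
        show sub c _ = 0
        rw [map_sub, map_sum, sub_eq_zero]
        refine (h2' i).trans (Finset.sum_congr rfl fun j _ => ?_)
        rw [map_mul, sub_rename]
      rw [ker_sub, Ideal.mem_span_singleton] at h3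
      exact h3
    choose q hq using hker
    have hth := tht_isHomogeneous c
    have hgi : ∀ i, g i = ∑ j, cp (D + 1) (δ j + δ i) (rename Fin.succ (s' i j)) * H j +
        cp (D + 1) (1 + δ i) (q i) * tht c := by
      intro i
      have h3 : g i = ∑ j, rename Fin.succ (s' i j) * H j + q i * tht c := by
        have := hq i
        rw [sub_eq_iff_eq_add] at this
        rw [this]
        ring
      have h4 := congrArg (cp (D + 1) (δ i)) h3
      rw [hg i, map_add, map_sum, cp_mul hth] at h4
      rw [h4]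
      congr 1
      refine Finset.sum_congr rfl fun j _ => ?_
      rw [cp_mul (hH j)]
    have halt0 : ∀ i, cp (D + 1) (δ i + δ i) (rename Fin.succ (s' i i)) = 0 := by
      intro i
      rw [h0', map_zero, map_zero]
    have halt1 : ∀ i j, cp (D + 1) (δ j + δ i) (rename Fin.succ (s' i j)) =
        -cp (D + 1) (δ i + δ j) (rename Fin.succ (s' j i)) := by
      intro i j
      rw [h1' i j, map_neg, map_neg, add_comm (δ i)]
    have hs2 := alt_sum (fun i j => cp (D + 1) (δ j + δ i) (rename Fin.succ (s' i j))) halt0 halt1 H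
    have hq0 : ∑ i, cp (D + 1) (1 + δ i) (q i) * H i = 0 := by
      have h5 : tht c * ∑ i, cp (D + 1) (1 + δ i) (q i) * H i = 0 := by
        have h6 : ∑ i, g i * H i = ∑ i, (∑ j, cp (D + 1) (δ j + δ i)
            (rename Fin.succ (s' i j)) * H j) * H i +
              tht c * ∑ i, cp (D + 1) (1 + δ i) (q i) * H i := by
          rw [Finset.mul_sum, ← Finset.sum_add_distrib]
          refine Finset.sum_congr rfl fun i _ => ?_
          conv_lhs => rw [hgi i]
          ring
        rw [hsum, hs2, zero_add] at h6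
        exact h6.symm
      exact (mul_eq_zero.1 h5).resolve_left (tht_ne_zero c)
    obtain ⟨t, ht0, ht1, ht2⟩ := ih (fun i => cp (D + 1) (1 + δ i) (q i)) (by
      intro i
      by_cases h7 : δ i ≤ D
      · rw [cp_of_le (show 1 + δ i ≤ D + 1 by omega), cp_of_le h7]
        have h8 : D + 1 - (1 + δ i) = D - δ i := by omega
        rw [h8]
        exact homogeneousComponent_eq_self (homogeneousComponent_isHomogeneous _ _)
      · rw [cp_of_lt (show D + 1 < 1 + δ i by omega), map_zero]) hq0
    refine ⟨fun i j => cp (D + 1) (δ j + δ i) (rename Fin.succ (s' i j)) + tht c * t i j,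
      fun i => ?_, fun i j => ?_, fun i => ?_⟩
    · show cp (D + 1) (δ i + δ i) (rename Fin.succ (s' i i)) + tht c * t i i = 0
      rw [halt0, ht0, mul_zero, add_zero]
    · show cp (D + 1) (δ j + δ i) (rename Fin.succ (s' i j)) + tht c * t i j =
        -(cp (D + 1) (δ i + δ j) (rename Fin.succ (s' j i)) + tht c * t j i)
      rw [halt1, ht1 i j]
      ring
    · rw [hgi i, ht2 i]
      simp only [add_mul, Finset.sum_add_distrib, Finset.sum_mul]
      congr 1
      refine Finset.sum_congr rfl fun j _ => ?_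
      ring

theorem Kos.lift {k : Type} [Field k] {n r : ℕ} (c : Fin n → k)
    (H : Fin r → MvPolynomial (Fin (n + 1)) k) (δ : Fin r → ℕ) (hδ : ∀ i, 1 ≤ δ i)
    (hH : ∀ i, (H i).IsHomogeneous (δ i)) (hK : Kos fun i => sub c (H i)) : Kos H := by
  classical
  intro g hg
  have hD : ∀ D : ℕ, ∃ s : Fin r → Fin r → MvPolynomial (Fin (n + 1)) k,
      (∀ i, s i i = 0) ∧ (∀ i j, s i j = -s j i) ∧
        ∀ i, cp D (δ i) (g i) = ∑ j, s i j * H j := by
    intro D
    refine Kos.lift_hom c H δ hδ hH hK D (fun i => cp D (δ i) (g i)) ?_ ?_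
    · intro i
      by_cases h7 : δ i ≤ D
      · rw [cp_of_le h7, cp_of_le h7]
        exact homogeneousComponent_eq_self (homogeneousComponent_isHomogeneous _ _)
      · rw [cp_of_lt (not_le.1 h7), cp_of_lt (not_le.1 h7)]
    · have h1 := congrArg (cp D 0) hg
      rw [map_sum, map_zero] at h1
      rw [← h1]
      refine Finset.sum_congr rfl fun i _ => ?_
      rw [cp_mul (hH i), add_zero]
  choose s h0 h1 h2 using hD
  obtain ⟨B, hB⟩ : ∃ B : ℕ, ∀ i, δ i + (g i).totalDegree < B :=
    ⟨(Finset.univ.sup fun i => δ i + (g i).totalDegree) + 1, fun i =>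
      Nat.lt_succ_of_le (Finset.le_sup (f := fun i => δ i + (g i).totalDegree) (Finset.mem_univ i))⟩
  refine ⟨fun i j => ∑ D ∈ Finset.range B, s D i j, fun i => ?_, fun i j => ?_, fun i => ?_⟩
  · exact Finset.sum_eq_zero fun D _ => h0 D i
  · show ∑ D ∈ Finset.range B, s D i j = -∑ D ∈ Finset.range B, s D j i
    rw [← Finset.sum_neg_distrib]
    exact Finset.sum_congr rfl fun D _ => h1 D i j
  · rw [← cp_sum (hB i)]
    rw [Finset.sum_congr rfl fun D _ => h2 D i, Finset.sum_comm]
    refine Finset.sum_congr rfl fun j _ => ?_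
    rw [Finset.sum_mul]

end T1
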