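import Pool.Agent.Lib.MP_23b606_ag.T1.Defs

/-! Z/Pow: Nullstellensatz in the form needed. -/

set_option autoImplicit false

open MvPolynomial

namespace T1

/-- If the only common zero of the `H i` is `0` then a power of every variable lies in the ideal
generated by the `H i`. -/
theorem pow_mem {k : Type} [Field k] [IsAlgClosed k] {σ τ : Type} [Finite σ]
    (H : τ → MvPolynomial σ k)
    (h0 : ∀ x : σ → k, (∀ i, eval x (H i) = 0) → x = 0) :
    ∃ N : ℕ, 1 ≤ N ∧ ∀ s, (X s : MvPolynomial σ k) ^ N ∈ Ideal.span (Set.range H) := by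
  have h1 : ∀ s, ∃ n : ℕ, (X s : MvPolynomial σ k) ^ n ∈ Ideal.span (Set.range H) := by
    intro s
    have h2 : (X s : MvPolynomial σ k) ∈ (Ideal.span (Set.range H)).radical := by
      rw [← vanishingIdeal_zeroLocus_eq_radical (K := k), mem_vanishingIdeal_iff]
      intro x hx
      have h3 : x = 0 := by
        refine h0 x fun i => ?_
        have h4 := mem_zeroLocus_iff.1 hx (H i) (Ideal.subset_span ⟨i, rfl⟩)
        rwa [aeval_eq_eval] at h4
      rw [aeval_X, h3, Pi.zero_apply]
    exact h2
  choose n hn using h1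
  obtain ⟨M, hM⟩ := Finite.exists_le n
  refine ⟨M + 1, Nat.le_add_left 1 M, fun s => ?_⟩
  have h2 : n s ≤ M + 1 := (hM s).trans (Nat.le_succ M)
  rw [← Nat.sub_add_cancel h2, pow_add]
  exact Ideal.mul_mem_left _ _ (hn s)

end T1
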