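import Pool.Agent.Lib.MP_23b606_ag.T1.Defs

/-! Z/Sub: the substitution `X 0 ↦ ∑ c_i X_i`. -/

set_option autoImplicit false

open MvPolynomial

namespace T1

/-- The substitution `X 0 ↦ ∑ c_i X_i`, `X (i+1) ↦ X i`. -/
noncomputable def sub {k : Type} [Field k] {n : ℕ} (c : Fin n → k) :
    MvPolynomial (Fin (n + 1)) k →ₐ[k] MvPolynomial (Fin n) k :=
  aeval (Fin.cons (∑ i, C (c i) * X i) X : Fin (n + 1) → MvPolynomial (Fin n) k)

/-- The linear form `X 0 - ∑ c_i X_(i+1)`. -/
noncomputable def tht {k : Type} [Field k] {n : ℕ} (c : Fin n → k) :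
    MvPolynomial (Fin (n + 1)) k :=
  X 0 - ∑ i, C (c i) * X (Fin.succ i)

variable {k : Type} [Field k] {n : ℕ}

theorem Sub_X_zero (c : Fin n → k) : sub c (X 0) = ∑ i, C (c i) * X i := by
  rw [sub, aeval_X]
  rfl

theorem Sub_X_succ (c : Fin n → k) (i : Fin n) : sub c (X (Fin.succ i)) = X i := by
  rw [sub, aeval_X]
  rfl

theorem sub_rename (c : Fin n → k) (p : MvPolynomial (Fin n) k) :
    sub c (rename Fin.succ p) = p := by
  have h : (sub c).comp (rename Fin.succ) = AlgHom.id k (MvPolynomial (Fin n) k) := by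
    refine MvPolynomial.algHom_ext fun i => ?_
    rw [AlgHom.comp_apply, rename_X, Sub_X_succ, AlgHom.id_apply]
  exact congrArg (fun g : MvPolynomial (Fin n) k →ₐ[k] MvPolynomial (Fin n) k => g p) h

theorem sub_surjective (c : Fin n → k) : Function.Surjective (sub c) := fun p =>
  ⟨rename Fin.succ p, sub_rename c p⟩

theorem Sub_tht (c : Fin n → k) : sub c (tht c) = 0 := by
  rw [tht, map_sub, Sub_X_zero, map_sum, sub_eq_zero]
  refine Finset.sum_congr rfl fun i _ => ?_
  rw [map_mul, Sub_X_succ]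
  congr 1
  exact ((sub c).commutes (c i)).symm

theorem ker_sub (c : Fin n → k) :
    RingHom.ker (sub c : MvPolynomial (Fin (n + 1)) k →+* MvPolynomial (Fin n) k)
      = Ideal.span {tht c} := by
  refine le_antisymm ?_ ?_
  · intro p hp
    have h : (Ideal.Quotient.mkₐ k (Ideal.span {tht c})) =
        (Ideal.Quotient.mkₐ k (Ideal.span {tht c})).comp ((rename Fin.succ).comp (sub c)) := by
      refine MvPolynomial.algHom_ext fun i => ?_
      rw [AlgHom.comp_apply, AlgHom.comp_apply, Ideal.Quotient.mkₐ_eq_mk, Ideal.Quotient.eq]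
      refine Fin.cases ?_ (fun j => ?_) i
      · rw [Sub_X_zero, map_sum]
        have h1 : X 0 - ∑ i, rename Fin.succ (C (c i) * X i : MvPolynomial (Fin n) k) =
            tht c := by
          rw [tht]
          congr 1
          refine Finset.sum_congr rfl fun i _ => ?_
          rw [map_mul, rename_C, rename_X]
        rw [h1]
        exact Ideal.mem_span_singleton_self _
      · rw [Sub_X_succ, rename_X, sub_self]
        exact Submodule.zero_mem _
    have h2 := congrArg (fun g : MvPolynomial (Fin (n + 1)) k →ₐ[k]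
      (MvPolynomial (Fin (n + 1)) k ⧸ Ideal.span {tht c}) => g p) h
    have h3 : sub c p = 0 := hp
    simp only [AlgHom.comp_apply, h3, map_zero] at h2
    exact Ideal.Quotient.eq_zero_iff_mem.1 h2
  · rw [Ideal.span_le, Set.singleton_subset_iff]
    exact Sub_tht c

theorem sub_isHomogeneous (c : Fin n → k) {p : MvPolynomial (Fin (n + 1)) k} {m : ℕ}
    (hp : p.IsHomogeneous m) : (sub c p).IsHomogeneous m := by
  have h := hp.aeval (Fin.cons (∑ i, C (c i) * X i) X : Fin (n + 1) → MvPolynomial (Fin n) k)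
    (n := 1) (fun i => by
      refine Fin.cases ?_ (fun j => ?_) i
      · rw [Fin.cons_zero]
        refine IsHomogeneous.sum _ _ _ fun i _ => ?_
        have := (isHomogeneous_C (Fin n) (c i)).mul (isHomogeneous_X k i)
        rwa [zero_add] at this
      · rw [Fin.cons_succ]
        exact isHomogeneous_X k j)
  rwa [one_mul] at h

theorem eval_sub (c : Fin n → k) (p : MvPolynomial (Fin (n + 1)) k) (x : Fin n → k) :
    eval x (sub c p) = eval (Fin.cons (∑ i, c i * x i) x : Fin (n + 1) → k) p := by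
  have h : (aeval x : MvPolynomial (Fin n) k →ₐ[k] k).comp (sub c) =
      aeval (Fin.cons (∑ i, c i * x i) x : Fin (n + 1) → k) := by
    refine MvPolynomial.algHom_ext fun i => ?_
    rw [AlgHom.comp_apply, aeval_X]
    refine Fin.cases ?_ (fun j => ?_) i
    · rw [Sub_X_zero, map_sum, Fin.cons_zero]
      refine Finset.sum_congr rfl fun i _ => ?_
      rw [map_mul, aeval_X, aeval_C]
      rfl
    · rw [Sub_X_succ, aeval_X, Fin.cons_succ]
  have h2 := congrArg (fun g : MvPolynomial (Fin (n + 1)) k →ₐ[k] k => g p) h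
  exact h2

theorem tht_isHomogeneous (c : Fin n → k) : (tht c).IsHomogeneous 1 := by
  refine (isHomogeneous_X k 0).sub (IsHomogeneous.sum _ _ _ fun i _ => ?_)
  have := (isHomogeneous_C (Fin (n + 1)) (c i)).mul (isHomogeneous_X k (Fin.succ i))
  rwa [zero_add] at this

theorem tht_ne_zero (c : Fin n → k) : tht c ≠ 0 := by
  intro h
  have h1 := congrArg (eval (Fin.cons 1 0 : Fin (n + 1) → k)) h
  rw [tht, map_sub, eval_X, Fin.cons_zero, map_sum, map_zero] at h1
  have h2 : ∑ i : Fin n, eval (Fin.cons 1 0 : Fin (n + 1) → k) (C (c i) * X (Fin.succ i)) = 0 := by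
    refine Finset.sum_eq_zero fun i _ => ?_
    rw [map_mul, eval_X, Fin.cons_succ, Pi.zero_apply, mul_zero]
  rw [h2, sub_zero] at h1
  exact one_ne_zero h1

end T1
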