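import Pool.Agent.Lib.MP_23b606_ag.T1.Z.Fin
import Pool.Agent.Lib.MP_23b606_ag.T1.Z.Sub

/-! Z/Sec: a generic hyperplane section. -/

set_option autoImplicit false

open MvPolynomial

namespace T1

theorem sec_eval_smul {k σ : Type} [Field k] {p : MvPolynomial σ k} {m : ℕ}
    (hp : p.IsHomogeneous m) (μ : k) (z : σ → k) :
    eval (μ • z) p = μ ^ m * eval z p := by
  rw [eval_eq, eval_eq, Finset.mul_sum]
  refine Finset.sum_congr rfl fun d hd => ?_
  have h1 : d.degree = m := by
    by_contra h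
    exact (mem_support_iff.1 hd) (hp.coeff_eq_zero h)
  simp only [Pi.smul_apply, smul_eq_mul, mul_pow, Finset.prod_mul_distrib]
  rw [Finset.prod_pow_eq_pow_sum]
  have h2 : ∑ i ∈ d.support, d i = m := h1
  rw [h2]
  ring

theorem sec_eval_zero {k σ : Type} [Field k] {p : MvPolynomial σ k} {m : ℕ} (hm : 1 ≤ m)
    (hp : p.IsHomogeneous m) : eval (0 : σ → k) p = 0 := by
  have h := sec_eval_smul hp 0 0
  rw [zero_smul, zero_pow (by omega), zero_mul] at h
  exact h

/-- Generic linear forms do not vanish on a finite set without `0`. -/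
theorem sec_generic {k : Type} [Field k] [Infinite k] {n : ℕ} (s : Finset (Fin (n + 1) → k))
    (hs : (0 : Fin (n + 1) → k) ∉ s) :
    ∃ c : Fin n → k, ∀ x ∈ s, x 0 ≠ ∑ i : Fin n, c i * x i.succ := by
  classical
  obtain ⟨P, hP⟩ : ∃ P : MvPolynomial (Fin n) k,
      P = ∏ x ∈ s, (C (x 0) - ∑ i : Fin n, C (x i.succ) * X i) := ⟨_, rfl⟩
  have hne : P ≠ 0 := by
    rw [hP, Finset.prod_ne_zero_iff]
    intro x hx h0
    apply hs
    have h1 : ∀ y : Fin n → k, x 0 - ∑ i : Fin n, x i.succ * y i = 0 := by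
      intro y
      have := congrArg (eval y) h0
      simpa using this
    have h2 : x 0 = 0 := by
      have := h1 0
      simpa using this
    have h3 : x = 0 := by
      funext j
      refine Fin.cases h2 (fun i => ?_) j
      have := h1 (Pi.single i 1)
      rw [h2] at this
      simpa [Pi.single_apply] using this
    rwa [h3] at hx
  obtain ⟨c, hc⟩ : ∃ c : Fin n → k, eval c P ≠ 0 := by
    by_contra hcon
    push Not at hcon
    exact hne (MvPolynomial.funext fun c => by rw [hcon c, map_zero])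
  refine ⟨c, fun x hx h => hc ?_⟩
  rw [hP, map_prod]
  refine Finset.prod_eq_zero hx ?_
  simp only [map_sub, map_sum, map_mul, eval_C, eval_X]
  rw [h, sub_eq_zero]
  exact Finset.sum_congr rfl fun i _ => mul_comm _ _

theorem exists_section {k : Type} [Field k] [IsAlgClosed k] {n : ℕ}
    (H : Fin (n + 1) → MvPolynomial (Fin (n + 1)) k) (δ : Fin (n + 1) → ℕ) (hδ : ∀ i, 1 ≤ δ i)
    (hH : ∀ i, (H i).IsHomogeneous (δ i))
    (h0 : ∀ x : Fin (n + 1) → k, (∀ i, eval x (H i) = 0) → x = 0) :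
    ∃ c : Fin n → k, ∀ x : Fin n → k,
      (∀ i : Fin n, eval x (sub c (H i.castSucc)) = 0) → x = 0 := by
  classical
  have : Infinite k := IsAlgClosed.instInfinite
  have hfin := zeros_finite H δ hδ hH h0 (fun i => if i = Fin.last n then 1 else 0)
  have hmem : ∀ x : Fin (n + 1) → k, x ∈ hfin.toFinset ↔
      (∀ i : Fin n, eval x (H i.castSucc) = 0) ∧ eval x (H (Fin.last n)) = 1 := by
    intro x
    rw [Set.Finite.mem_toFinset, Set.mem_setOf_eq]
    constructor
    · intro h
      refine ⟨fun i => ?_, ?_⟩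
      · have := h i.castSucc
        rwa [if_neg (Fin.castSucc_lt_last i).ne] at this
      · have := h (Fin.last n)
        rwa [if_pos rfl] at this
    · rintro ⟨h1, h2⟩ i
      refine Fin.lastCases ?_ (fun j => ?_) i
      · rw [h2, if_pos rfl]
      · rw [h1 j, if_neg (Fin.castSucc_lt_last j).ne]
  obtain ⟨c, hc⟩ := sec_generic hfin.toFinset (by
    rw [hmem]
    rintro ⟨-, h⟩
    rw [sec_eval_zero (hδ _) (hH _)] at h
    exact zero_ne_one h)
  refine ⟨c, fun x hx => ?_⟩
  by_contra hx0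
  obtain ⟨z, hz⟩ : ∃ z : Fin (n + 1) → k, z = Fin.cons (∑ i, c i * x i) x := ⟨_, rfl⟩
  have h1 : ∀ i : Fin n, eval z (H i.castSucc) = 0 := fun i => by
    rw [hz, ← eval_sub]
    exact hx i
  have ha : eval z (H (Fin.last n)) ≠ 0 := by
    intro h2
    have h3 : z = 0 := h0 z fun i => Fin.lastCases h2 h1 i
    apply hx0
    funext i
    have h4 := congrFun h3 i.succ
    rw [hz, Fin.cons_succ] at h4
    exact h4
  obtain ⟨μ, hμ⟩ := IsAlgClosed.exists_pow_nat_eq (eval z (H (Fin.last n)))⁻¹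
    (n := δ (Fin.last n)) (hδ _)
  refine hc (μ • z) ((hmem _).2 ⟨fun i => ?_, ?_⟩) ?_
  · rw [sec_eval_smul (hH _), h1, mul_zero]
  · rw [sec_eval_smul (hH _), hμ, inv_mul_cancel₀ ha]
  · simp only [hz, Pi.smul_apply, smul_eq_mul, Fin.cons_zero, Fin.cons_succ]
    rw [Finset.mul_sum]
    exact Finset.sum_congr rfl fun i _ => by ring

end T1
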