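import Pool.Agent.Lib.MP_23b606_ag.T1.Z.KosA
import Pool.Agent.Lib.MP_23b606_ag.T1.Z.KosB
import Pool.Agent.Lib.MP_23b606_ag.T1.Z.Sec
import Pool.Agent.Lib.MP_23b606_ag.T1.Z.Pow

/-! Z/KosP: forms with only the zero `0` have the Koszul property. -/

set_option autoImplicit false

open MvPolynomial

namespace T1

/-- the linear form `tht c` is in the radical -/
theorem kosP_rad {k : Type} [Field k] [IsAlgClosed k] {n : ℕ} (c : Fin n → k) {τ : Type}
    (H : τ → MvPolynomial (Fin (n + 1)) k)
    (h0 : ∀ x : Fin (n + 1) → k, (∀ i, eval x (H i) = 0) → x = 0) :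
    ∃ m : ℕ, (tht c) ^ m ∈ Ideal.span (Set.range H) := by
  obtain ⟨N, -, hN⟩ := pow_mem H h0
  have h1 : ∀ s, (X s : MvPolynomial (Fin (n + 1)) k) ∈ (Ideal.span (Set.range H)).radical :=
    fun s => ⟨N, hN s⟩
  have h2 : tht c ∈ (Ideal.span (Set.range H)).radical := by
    rw [tht]
    exact Ideal.sub_mem _ (h1 0) (Ideal.sum_mem _ fun i _ => Ideal.mul_mem_left _ _ (h1 _))
  exact h2

theorem kos_all {k : Type} [Field k] [IsAlgClosed k] (n : ℕ)
    (H : Fin n → MvPolynomial (Fin n) k) (δ : Fin n → ℕ) (hδ : ∀ i, 1 ≤ δ i)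
    (hH : ∀ i, (H i).IsHomogeneous (δ i))
    (h0 : ∀ x : Fin n → k, (∀ i, eval x (H i) = 0) → x = 0) (r : ℕ) (hr : r ≤ n) :
    Kos fun i : Fin r => H (Fin.castLE hr i) := by
  induction n generalizing r with
  | zero =>
    obtain rfl : r = 0 := Nat.le_zero.1 hr
    intro g _
    exact ⟨fun _ _ => 0, fun i => i.elim0, fun i => i.elim0, fun i => i.elim0⟩
  | succ n ih =>
    obtain ⟨c, hc⟩ := exists_section H δ hδ hH h0
    have ih' : ∀ (r : ℕ) (hr : r ≤ n),
        Kos fun i : Fin r => sub c (H (Fin.castLE hr i).castSucc) := fun r hr =>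
      ih (fun i => sub c (H i.castSucc)) (fun i => δ i.castSucc) (fun i => hδ _)
        (fun i => sub_isHomogeneous c (hH _)) hc r hr
    have hle : ∀ (r : ℕ) (hr : r ≤ n),
        Kos fun i : Fin r => H (Fin.castLE hr i).castSucc := fun r hr =>
      Kos.lift c _ (fun i => δ (Fin.castLE hr i).castSucc) (fun i => hδ _) (fun i => hH _)
        (ih' r hr)
    rcases Nat.lt_or_ge n r with h1 | h1
    · obtain rfl : r = n + 1 := by omega
      have e1 : (fun i : Fin (n + 1) => H (Fin.castLE hr i)) = H := rfl
      rw [e1]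
      have hn : Kos fun i : Fin n => H i.castSucc := hle n le_rfl
      have hn' : Kos fun i : Fin n =>
          (sub c : MvPolynomial (Fin (n + 1)) k →+* MvPolynomial (Fin n) k) (H i.castSucc) :=
        ih' n le_rfl
      refine Kos.snoc H hn fun f hf => ?_
      have hstep : ∀ g, tht c * g ∈ Ideal.span (Set.range fun i : Fin n => H i.castSucc) →
          g ∈ Ideal.span (Set.range fun i : Fin n => H i.castSucc) := fun g hg =>
        Kos.of_theta_mul (sub c : MvPolynomial (Fin (n + 1)) k →+* MvPolynomial (Fin n) k)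
          (sub_surjective c) (tht c) (ker_sub c)
          (fun x hx => (mul_eq_zero.1 hx).resolve_left (tht_ne_zero c)) _ hn' g hg
      have hpow : ∀ (m : ℕ) (g : MvPolynomial (Fin (n + 1)) k),
          (tht c) ^ m * g ∈ Ideal.span (Set.range fun i : Fin n => H i.castSucc) →
          g ∈ Ideal.span (Set.range fun i : Fin n => H i.castSucc) := by
        intro m
        induction m with
        | zero =>
          intro g hg
          rwa [pow_zero, one_mul] at hg
        | succ m ihm =>
          intro g hg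
          rw [pow_succ, mul_assoc] at hg
          exact hstep g (ihm _ hg)
      obtain ⟨m, hm⟩ := kosP_rad c H h0
      have hrange : Set.range H = insert (H (Fin.last n)) (Set.range fun i : Fin n =>
          H i.castSucc) := by
        ext x
        constructor
        · rintro ⟨i, rfl⟩
          induction i using Fin.lastCases with
          | last => exact Set.mem_insert _ _
          | cast i => exact Set.mem_insert_of_mem _ ⟨i, rfl⟩
        · rintro (rfl | ⟨i, rfl⟩)
          · exact ⟨_, rfl⟩
          · exact ⟨_, rfl⟩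
      rw [hrange, Ideal.mem_span_insert] at hm
      obtain ⟨u, z, hz, hzu⟩ := hm
      refine hpow m f ?_
      rw [hzu]
      have e2 : (u * H (Fin.last n) + z) * f = u * (f * H (Fin.last n)) + f * z := by ring
      rw [e2]
      exact Ideal.add_mem _ (Ideal.mul_mem_left _ _ hf) (Ideal.mul_mem_left _ _ hz)
    · exact hle r h1

end T1
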