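import Pool.Agent.Lib.MP_23b606_ag.T1.Z.Dim
import Pool.Agent.Lib.MP_23b606_ag.T1.Z.KosP
import Pool.Agent.Lib.MP_23b606_ag.T1.Z.Fin

/-! Z/Cmp: the dimension of the quotient depends only on the degrees. -/

set_option autoImplicit false

open MvPolynomial

namespace T1

/-- A form of positive degree vanishes at `0`. -/
theorem Cmp_eval {k : Type} [Field k] {σ : Type} {H : MvPolynomial σ k} {δ : ℕ} (hδ : 1 ≤ δ)
    (hH : H.IsHomogeneous δ) : constantCoeff H = 0 := by
  rw [constantCoeff_eq]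
  refine hH.coeff_eq_zero ?_
  rw [map_zero]
  omega

theorem Cmp_ne {k : Type} [Field k] [IsAlgClosed k] {n : ℕ}
    {H : Fin n → MvPolynomial (Fin n) k} {δ : Fin n → ℕ} (hδ : ∀ i, 1 ≤ δ i)
    (hH : ∀ i, (H i).IsHomogeneous (δ i))
    (h0 : ∀ x : Fin n → k, (∀ i, eval x (H i) = 0) → x = 0) (i : Fin n) : H i ≠ 0 := by
  intro hi
  have hK := kos_all n H δ hδ hH h0 (i.1 + 1) i.2
  have h1 := Kos.reg (fun j : Fin (i.1 + 1) => H (Fin.castLE i.2 j)) hK 1 (by
    have e : Fin.castLE i.2 (Fin.last i.1) = i := rfl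
    simp only [e, hi, mul_zero]
    exact Ideal.zero_mem _)
  have h2 : Ideal.span (Set.range fun j : Fin i.1 => H (Fin.castLE i.2 j.castSucc)) ≤
      RingHom.ker (constantCoeff (σ := Fin n) (R := k)) := by
    rw [Ideal.span_le]
    rintro _ ⟨j, rfl⟩
    exact Cmp_eval (hδ _) (hH _)
  have h3 := h2 h1
  rw [RingHom.mem_ker, map_one] at h3
  exact one_ne_zero h3

theorem Cmp_iD {k : Type} [Field k] [IsAlgClosed k] (n : ℕ)
    (H H' : Fin n → MvPolynomial (Fin n) k) (δ : Fin n → ℕ) (hδ : ∀ i, 1 ≤ δ i)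
    (hH : ∀ i, (H i).IsHomogeneous (δ i)) (hH' : ∀ i, (H' i).IsHomogeneous (δ i))
    (h0 : ∀ x : Fin n → k, (∀ i, eval x (H i) = 0) → x = 0)
    (h0' : ∀ x : Fin n → k, (∀ i, eval x (H' i) = 0) → x = 0) (t t' : Fin n → k) :
    ∀ (r : ℕ) (hr : r ≤ n) (m : ℕ),
      iD (Ideal.span (Set.range fun i : Fin r => H (Fin.castLE hr i) - C (t (Fin.castLE hr i)))) m =
      iD (Ideal.span (Set.range fun i : Fin r =>
        H' (Fin.castLE hr i) - C (t' (Fin.castLE hr i)))) m
  | 0, hr, m => by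
    rw [Set.range_eq_empty, Set.range_eq_empty]
  | r + 1, hr, m => by
    have hr' : r ≤ n := (Nat.le_succ r).trans hr
    have ih := Cmp_iD n H H' δ hδ hH hH' h0 h0' t t' r hr'
    have e1 := iD_succ (fun i : Fin (r + 1) => H (Fin.castLE hr i)) (fun i => δ (Fin.castLE hr i))
      (fun i => hδ _) (fun i => hH _) (fun i => Cmp_ne hδ hH h0 _)
      (kos_all n H δ hδ hH h0 (r + 1) hr) (kos_all n H δ hδ hH h0 r hr')
      (fun i => t (Fin.castLE hr i)) m
    have e2 := iD_succ (fun i : Fin (r + 1) => H' (Fin.castLE hr i)) (fun i => δ (Fin.castLE hr i))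
      (fun i => hδ _) (fun i => hH' _) (fun i => Cmp_ne hδ hH' h0' _)
      (kos_all n H' δ hδ hH' h0' (r + 1) hr) (kos_all n H' δ hδ hH' h0' r hr')
      (fun i => t' (Fin.castLE hr i)) m
    have i1 := ih m
    have i2 := ih (m - δ (Fin.castLE hr (Fin.last r)))
    rw [e1, e2]
    have f1 : ∀ m, iD (Ideal.span (Set.range fun i : Fin r =>
        H (Fin.castLE hr i.castSucc) - C (t (Fin.castLE hr i.castSucc)))) m =
        iD (Ideal.span (Set.range fun i : Fin r =>
          H (Fin.castLE hr' i) - C (t (Fin.castLE hr' i)))) m := fun _ => rfl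
    have f2 : ∀ m, iD (Ideal.span (Set.range fun i : Fin r =>
        H' (Fin.castLE hr i.castSucc) - C (t' (Fin.castLE hr i.castSucc)))) m =
        iD (Ideal.span (Set.range fun i : Fin r =>
          H' (Fin.castLE hr' i) - C (t' (Fin.castLE hr' i)))) m := fun _ => rfl
    rw [f1, f1, f2, f2, i1, i2]

theorem finrank_eq_of_deg {k : Type} [Field k] [IsAlgClosed k] (n : ℕ)
    (H H' : Fin n → MvPolynomial (Fin n) k) (δ : Fin n → ℕ) (hδ : ∀ i, 1 ≤ δ i)
    (hH : ∀ i, (H i).IsHomogeneous (δ i)) (hH' : ∀ i, (H' i).IsHomogeneous (δ i))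
    (h0 : ∀ x : Fin n → k, (∀ i, eval x (H i) = 0) → x = 0)
    (h0' : ∀ x : Fin n → k, (∀ i, eval x (H' i) = 0) → x = 0) (t t' : Fin n → k) :
    Module.finrank k (MvPolynomial (Fin n) k ⧸ Ideal.span (Set.range fun i => H i - C (t i)))
      = Module.finrank k
        (MvPolynomial (Fin n) k ⧸ Ideal.span (Set.range fun i => H' i - C (t' i))) := by
  have := quot_finite H δ hδ hH h0 t
  have := quot_finite H' δ hδ hH' h0' t'
  obtain ⟨m1, h1⟩ := finrank_quot (Ideal.span (Set.range fun i => H i - C (t i)))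
  obtain ⟨m2, h2⟩ := finrank_quot (Ideal.span (Set.range fun i => H' i - C (t' i)))
  have e1 := h1 (max m1 m2) (le_max_left _ _)
  have e2 := h2 (max m1 m2) (le_max_right _ _)
  have e3 : iD (Ideal.span (Set.range fun i => H i - C (t i))) (max m1 m2) =
      iD (Ideal.span (Set.range fun i => H' i - C (t' i))) (max m1 m2) :=
    Cmp_iD n H H' δ hδ hH hH' h0 h0' t t' n le_rfl (max m1 m2)
  omega

end T1
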