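import Pool.Agent.Lib.MP_23b606_ag.T1.Z.Syz

/-! Z/Dim: the recursion for the dimensions of the truncated ideals. -/

set_option autoImplicit false

open MvPolynomial

namespace T1

/-- The dimension of the space of elements of degree at most `m` of the ideal `I`. -/
noncomputable def iD {k : Type} [Field k] {σ : Type} (I : Ideal (MvPolynomial σ k)) (m : ℕ) : ℕ :=
  Module.finrank k ↥(I.restrictScalars k ⊓ restrictTotalDegree σ k m)

theorem iD_le {k : Type} [Field k] {σ : Type} [Finite σ] (I : Ideal (MvPolynomial σ k)) (m : ℕ) :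
    iD I m ≤ Module.finrank k ↥(restrictTotalDegree σ k m) :=
  Submodule.finrank_mono inf_le_right

/-- A form of positive degree minus a constant is nonzero. -/
theorem Dim_ne {k : Type} [Field k] {σ : Type} {H : MvPolynomial σ k} {δ : ℕ} (hδ : 1 ≤ δ)
    (hH : H.IsHomogeneous δ) (h0 : H ≠ 0) (t : k) : H - C t ≠ 0 := by
  intro h
  have h1 : H = C t := sub_eq_zero.1 h
  have h2 : δ = H.totalDegree := (hH.totalDegree h0).symm
  rw [h1, totalDegree_C] at h2
  omega

theorem Dim_deg {k : Type} [Field k] {σ : Type} {H : MvPolynomial σ k} {δ : ℕ}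
    (hH : H.IsHomogeneous δ) (t : k) : (H - C t).totalDegree ≤ δ := by
  refine (totalDegree_sub _ _).trans ?_
  rw [totalDegree_C]
  exact max_le hH.totalDegree_le (Nat.zero_le _)

/-- The image of a space under the multiplication by a nonzero polynomial. -/
theorem Dim_map {k : Type} [Field k] {σ : Type} {h : MvPolynomial σ k} (h0 : h ≠ 0)
    (V : Submodule k (MvPolynomial σ k)) :
    Module.finrank k ↥(V.map (LinearMap.mulLeft k h)) = Module.finrank k ↥V := by
  refine (LinearEquiv.finrank_eq (Submodule.equivMapOfInjective (LinearMap.mulLeft k h) ?_ V)).symm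
  intro a b hab
  exact mul_left_cancel₀ h0 hab

theorem Dim_mem {k : Type} [Field k] {σ : Type} {I : Ideal (MvPolynomial σ k)} {m : ℕ}
    {f : MvPolynomial σ k} :
    f ∈ I.restrictScalars k ⊓ restrictTotalDegree σ k m ↔ f ∈ I ∧ f.totalDegree ≤ m := by
  rw [Submodule.mem_inf, Submodule.restrictScalars_mem, mem_restrictTotalDegree]

theorem Dim_span_le {k : Type} [Field k] {σ : Type} {r : ℕ}
    (H : Fin (r + 1) → MvPolynomial σ k) (t : Fin (r + 1) → k) :
    Ideal.span (Set.range fun i : Fin r => H i.castSucc - C (t i.castSucc)) ≤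
      Ideal.span (Set.range fun i => H i - C (t i)) := by
  refine Ideal.span_mono ?_
  rintro _ ⟨i, rfl⟩
  exact ⟨i.castSucc, rfl⟩

theorem iD_succ {k : Type} [Field k] {σ : Type} [Finite σ] {r : ℕ}
    (H : Fin (r + 1) → MvPolynomial σ k)
    (δ : Fin (r + 1) → ℕ) (hδ : ∀ i, 1 ≤ δ i) (hH : ∀ i, (H i).IsHomogeneous (δ i))
    (h0 : ∀ i, H i ≠ 0) (hK : Kos H)
    (hK' : Kos fun i : Fin r => H i.castSucc) (t : Fin (r + 1) → k) (m : ℕ) :
    iD (Ideal.span (Set.range fun i => H i - C (t i))) m
      = iD (Ideal.span (Set.range fun i : Fin r => H i.castSucc - C (t i.castSucc))) m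
        + if δ (Fin.last r) ≤ m then
            Module.finrank k ↥(restrictTotalDegree σ k (m - δ (Fin.last r)))
              - iD (Ideal.span (Set.range fun i : Fin r => H i.castSucc - C (t i.castSucc)))
                  (m - δ (Fin.last r))
          else 0 := by
  have hreg := syz_reg H δ hδ hH hK hK' t
  have hle := Dim_span_le H t
  have hh : H (Fin.last r) - C (t (Fin.last r)) ∈ Ideal.span (Set.range fun i => H i - C (t i)) :=
    Ideal.subset_span ⟨Fin.last r, rfl⟩
  have hsy : ∀ f ∈ Ideal.span (Set.range fun i => H i - C (t i)), f.totalDegree ≤ m →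
      ∃ u : MvPolynomial σ k, (u ≠ 0 → u.totalDegree + δ (Fin.last r) ≤ m) ∧
        f - (H (Fin.last r) - C (t (Fin.last r))) * u ∈
          Ideal.span (Set.range fun i : Fin r => H i.castSucc - C (t i.castSucc)) := by
    intro f hf hm
    obtain ⟨g, hg, hd⟩ := syz_deg H δ hδ hH hK t m f hf hm
    refine ⟨g (Fin.last r), hd _, ?_⟩
    rw [hg, Fin.sum_univ_castSucc, mul_comm (H (Fin.last r) - C (t (Fin.last r))), add_sub_cancel_right]
    exact Ideal.sum_mem _ fun i _ => Ideal.mul_mem_left _ _ (Ideal.subset_span ⟨i, rfl⟩)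
  have hne := Dim_ne (hδ (Fin.last r)) (hH (Fin.last r)) (h0 (Fin.last r)) (t (Fin.last r))
  have hdeg := Dim_deg (hH (Fin.last r)) (t (Fin.last r))
  generalize H (Fin.last r) - C (t (Fin.last r)) = h at hreg hh hsy hne hdeg
  generalize Ideal.span (Set.range fun i => H i - C (t i)) = I at hle hh hsy ⊢
  generalize Ideal.span (Set.range fun i : Fin r => H i.castSucc - C (t i.castSucc)) = I'
    at hreg hle hsy ⊢
  split_ifs with hc
  · have hA : I.restrictScalars k ⊓ restrictTotalDegree σ k m =
        (I'.restrictScalars k ⊓ restrictTotalDegree σ k m) ⊔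
          (restrictTotalDegree σ k (m - δ (Fin.last r))).map (LinearMap.mulLeft k h) := by
      apply le_antisymm
      · intro f hf
        rw [Dim_mem] at hf
        obtain ⟨u, hu, hfu⟩ := hsy f hf.1 hf.2
        have hum : u.totalDegree ≤ m - δ (Fin.last r) := by
          rcases eq_or_ne u 0 with h1 | h1
          · rw [h1, totalDegree_zero]
            exact Nat.zero_le _
          · have := hu h1
            omega
        have hhu : (h * u).totalDegree ≤ m := by
          refine (totalDegree_mul _ _).trans ?_
          omega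
        have e : f = (f - h * u) + h * u := by ring
        rw [e]
        refine Submodule.add_mem_sup ?_ ?_
        · rw [Dim_mem]
          exact ⟨hfu, (totalDegree_sub _ _).trans (max_le hf.2 hhu)⟩
        · exact ⟨u, (mem_restrictTotalDegree _ _ _).2 hum, rfl⟩
      · refine sup_le (inf_le_inf_right _ fun f hf => hle hf) ?_
        rintro _ ⟨u, hu, rfl⟩
        have hum : u.totalDegree ≤ m - δ (Fin.last r) := (mem_restrictTotalDegree _ _ _).1 hu
        rw [LinearMap.mulLeft_apply, Dim_mem]
        refine ⟨Ideal.mul_mem_right _ _ hh, (totalDegree_mul _ _).trans ?_⟩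
        omega
    have hB : (I'.restrictScalars k ⊓ restrictTotalDegree σ k m) ⊓
          (restrictTotalDegree σ k (m - δ (Fin.last r))).map (LinearMap.mulLeft k h) =
        (I'.restrictScalars k ⊓ restrictTotalDegree σ k (m - δ (Fin.last r))).map
          (LinearMap.mulLeft k h) := by
      apply le_antisymm
      · rintro _ ⟨hf, u, hu, rfl⟩
        refine ⟨u, ⟨?_, hu⟩, rfl⟩
        refine hreg u ?_
        rw [mul_comm]
        exact hf.1
      · rintro _ ⟨u, hu, rfl⟩
        have hum : u.totalDegree ≤ m - δ (Fin.last r) := (mem_restrictTotalDegree _ _ _).1 hu.2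
        refine ⟨?_, u, hu.2, rfl⟩
        rw [SetLike.mem_coe, LinearMap.mulLeft_apply, Dim_mem]
        refine ⟨Ideal.mul_mem_left _ _ hu.1, (totalDegree_mul _ _).trans ?_⟩
        omega
    have hfin1 : FiniteDimensional k ↥(I'.restrictScalars k ⊓ restrictTotalDegree σ k m) :=
      Submodule.finiteDimensional_of_le inf_le_right
    have hfin2 : FiniteDimensional k
        ↥((restrictTotalDegree σ k (m - δ (Fin.last r))).map (LinearMap.mulLeft k h)) :=
      inferInstance
    have hsum := Submodule.finrank_sup_add_finrank_inf_eq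
      (I'.restrictScalars k ⊓ restrictTotalDegree σ k m)
      ((restrictTotalDegree σ k (m - δ (Fin.last r))).map (LinearMap.mulLeft k h))
    rw [← hA, hB, Dim_map hne, Dim_map hne] at hsum
    have h1 := iD_le I' (m - δ (Fin.last r))
    unfold iD at h1 ⊢
    omega
  · have hA : I.restrictScalars k ⊓ restrictTotalDegree σ k m =
        I'.restrictScalars k ⊓ restrictTotalDegree σ k m := by
      apply le_antisymm
      · intro f hf
        rw [Dim_mem] at hf
        obtain ⟨u, hu, hfu⟩ := hsy f hf.1 hf.2
        have hu0 : u = 0 := by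
          by_contra h1
          have := hu h1
          omega
        rw [hu0, mul_zero, sub_zero] at hfu
        rw [Dim_mem]
        exact ⟨hfu, hf.2⟩
      · exact inf_le_inf_right _ fun f hf => hle hf
    unfold iD
    rw [hA, add_zero]

/-- For large `m` the dimension of the quotient is the difference of the dimensions. -/
theorem finrank_quot {k : Type} [Field k] {σ : Type} [Finite σ] (I : Ideal (MvPolynomial σ k))
    [Module.Finite k (MvPolynomial σ k ⧸ I)] :
    ∃ m0 : ℕ, ∀ m, m0 ≤ m →
      Module.finrank k (MvPolynomial σ k ⧸ I) + iD I m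
        = Module.finrank k ↥(restrictTotalDegree σ k m) := by
  classical
  obtain ⟨S, hS⟩ := (Module.Finite.fg_top : (⊤ : Submodule k (MvPolynomial σ k ⧸ I)).FG)
  have hsurj : Function.Surjective (Ideal.Quotient.mkₐ k I) := Ideal.Quotient.mkₐ_surjective k I
  choose g hg using hsurj
  refine ⟨S.sup fun s => (g s).totalDegree, fun m hm => ?_⟩
  have hr := LinearMap.finrank_range_add_finrank_ker
    ((Ideal.Quotient.mkₐ k I).toLinearMap ∘ₗ (restrictTotalDegree σ k m).subtype)
  have h1 : LinearMap.range
      ((Ideal.Quotient.mkₐ k I).toLinearMap ∘ₗ (restrictTotalDegree σ k m).subtype) = ⊤ := by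
    rw [eq_top_iff, ← hS, Submodule.span_le]
    intro s hs
    refine ⟨⟨g s, ?_⟩, hg s⟩
    rw [mem_restrictTotalDegree]
    exact (Finset.le_sup (f := fun s => (g s).totalDegree) hs).trans hm
  have h2 : Module.finrank k ↥(LinearMap.ker
      ((Ideal.Quotient.mkₐ k I).toLinearMap ∘ₗ (restrictTotalDegree σ k m).subtype)) = iD I m := by
    have hker : LinearMap.ker (Ideal.Quotient.mkₐ k I).toLinearMap = I.restrictScalars k := by
      ext f
      rw [LinearMap.mem_ker, Submodule.restrictScalars_mem]
      exact Ideal.Quotient.eq_zero_iff_mem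
    rw [← Submodule.finrank_map_subtype_eq, LinearMap.ker_comp, Submodule.map_comap_subtype,
      inf_comm, hker]
    rfl
  rw [h1, h2, finrank_top] at hr
  exact hr

end T1
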