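import Pool.Agent.Lib.MP_23b606_ag.T1.Defs

/-! Z/KosA: the Koszul property, abstract lemmas. -/

set_option autoImplicit false

namespace T1

/-- The double sum of an alternating family is zero. -/
theorem sum_alt_eq_zero {R : Type} [CommRing R] {r : ℕ} (a : Fin r → Fin r → R)
    (h0 : ∀ i, a i i = 0) (h1 : ∀ i j, a i j = -a j i) : ∑ i, ∑ j, a i j = 0 := by
  rw [← Finset.sum_product']
  refine Finset.sum_involution (fun p _ => (p.2, p.1)) ?_ ?_ ?_ ?_
  · rintro ⟨i, j⟩ _
    simp only
    rw [h1 i j, neg_add_cancel]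
  · rintro ⟨i, j⟩ _ hne h
    simp only [Prod.mk.injEq] at h
    obtain ⟨rfl, -⟩ := h
    exact hne (h0 _)
  · rintro ⟨i, j⟩ _
    exact Finset.mem_product.2 ⟨Finset.mem_univ _, Finset.mem_univ _⟩
  · rintro ⟨i, j⟩ _
    rfl

theorem Kos.of_theta_mul {R R' : Type} [CommRing R] [CommRing R'] (φ : R →+* R')
    (hφ : Function.Surjective φ) (θ : R) (hker : RingHom.ker φ = Ideal.span {θ})
    (hθ : ∀ x, θ * x = 0 → x = 0) {r : ℕ} (H : Fin r → R) (hK : Kos fun i => φ (H i)) (f : R)
    (hf : θ * f ∈ Ideal.span (Set.range H)) : f ∈ Ideal.span (Set.range H) := by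
  obtain ⟨g, hg⟩ := Ideal.mem_span_range_iff_exists_fun.1 hf
  have hθ0 : φ θ = 0 := by
    rw [← RingHom.mem_ker, hker]
    exact Ideal.mem_span_singleton_self θ
  obtain ⟨s', hs0, hs1, hs2⟩ := hK (fun i => φ (g i)) (by
    simp only [← map_mul, ← map_sum]
    rw [hg, map_mul, hθ0, zero_mul])
  choose t ht using fun i j => hφ (s' i j)
  obtain ⟨s, hs⟩ : ∃ s : Fin r → Fin r → R, s = fun i j =>
      if i < j then t i j else if j < i then -t j i else 0 := ⟨_, rfl⟩
  have hsa : ∀ i, s i i = 0 := fun i => by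
    rw [hs]
    simp
  have hsb : ∀ i j, s i j = -s j i := fun i j => by
    rw [hs]
    simp only
    rcases lt_trichotomy i j with h | h | h
    · rw [if_pos h, if_neg (not_lt.2 h.le), if_pos h, neg_neg]
    · subst h
      simp
    · rw [if_neg (not_lt.2 h.le), if_pos h, if_pos h]
  have hsc : ∀ i j, φ (s i j) = s' i j := fun i j => by
    rw [hs]
    simp only
    rcases lt_trichotomy i j with h | h | h
    · rw [if_pos h, ht]
    · subst h
      simp [hs0]
    · rw [if_neg (not_lt.2 h.le), if_pos h, map_neg, ht, hs1 i j]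
  have h1 : ∀ i, ∃ g' : R, g i - ∑ j, s i j * H j = θ * g' := fun i => by
    have h2 : g i - ∑ j, s i j * H j ∈ RingHom.ker φ := by
      rw [RingHom.mem_ker, map_sub, map_sum, sub_eq_zero]
      have h3 := hs2 i
      simp only at h3
      rw [h3]
      refine Finset.sum_congr rfl fun j _ => ?_
      rw [map_mul, hsc]
    rw [hker, Ideal.mem_span_singleton] at h2
    exact h2
  choose g' hg' using h1
  have h4 : ∑ i, (∑ j, s i j * H j) * H i = 0 := by
    have h5 := sum_alt_eq_zero (fun i j => s i j * H j * H i) (fun i => by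
      rw [hsa, zero_mul, zero_mul]) (fun i j => by
      rw [hsb i j]
      ring)
    rw [← h5]
    exact Finset.sum_congr rfl fun i _ => Finset.sum_mul _ _ _
  have h6 : θ * (f - ∑ i, g' i * H i) = 0 := by
    rw [mul_sub, ← hg, Finset.mul_sum]
    have h7 : ∑ i, θ * (g' i * H i) = ∑ i, g i * H i - ∑ i, (∑ j, s i j * H j) * H i := by
      rw [← Finset.sum_sub_distrib]
      refine Finset.sum_congr rfl fun i _ => ?_
      rw [← sub_mul, hg' i, mul_assoc]
    rw [h7, h4, sub_zero, sub_self]
  exact Ideal.mem_span_range_iff_exists_fun.2 ⟨g', (sub_eq_zero.1 (hθ _ h6)).symm⟩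

theorem Kos.snoc {R : Type} [CommRing R] {r : ℕ} (H : Fin (r + 1) → R)
    (hK : Kos fun i : Fin r => H i.castSucc)
    (hreg : ∀ f, f * H (Fin.last r) ∈ Ideal.span (Set.range fun i : Fin r => H i.castSucc) →
      f ∈ Ideal.span (Set.range fun i : Fin r => H i.castSucc)) : Kos H := by
  intro g hg
  rw [Fin.sum_univ_castSucc] at hg
  have h1 : g (Fin.last r) * H (Fin.last r) ∈
      Ideal.span (Set.range fun i : Fin r => H i.castSucc) := by
    refine Ideal.mem_span_range_iff_exists_fun.2 ⟨fun i => -g i.castSucc, ?_⟩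
    have h2 : ∑ i : Fin r, -g i.castSucc * H i.castSucc = -∑ i : Fin r, g i.castSucc * H i.castSucc := by
      rw [← Finset.sum_neg_distrib]
      exact Finset.sum_congr rfl fun i _ => neg_mul _ _
    rw [h2]
    exact neg_eq_of_add_eq_zero_right hg
  obtain ⟨u, hu⟩ := Ideal.mem_span_range_iff_exists_fun.1 (hreg _ h1)
  obtain ⟨s, hs0, hs1, hs2⟩ := hK (fun i => g i.castSucc + u i * H (Fin.last r)) (by
    rw [← hg, ← hu, Finset.sum_mul, ← Finset.sum_add_distrib]
    refine Finset.sum_congr rfl fun i _ => ?_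
    ring)
  refine ⟨fun i j => Fin.lastCases (motive := fun _ => R)
    (Fin.lastCases (motive := fun _ => R) 0 (fun j => u j) j)
    (fun i => Fin.lastCases (motive := fun _ => R) (-u i) (fun j => s i j) j) i, ?_, ?_, ?_⟩
  · intro i
    refine Fin.lastCases ?_ (fun i => ?_) i
    · simp
    · simp [hs0]
  · intro i j
    refine Fin.lastCases ?_ (fun i => ?_) i
    · refine Fin.lastCases ?_ (fun j => ?_) j
      · simp
      · simp
    · refine Fin.lastCases ?_ (fun j => ?_) j
      · simp
      · simp [hs1 i j]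
  · intro i
    refine Fin.lastCases ?_ (fun i => ?_) i
    · rw [Fin.sum_univ_castSucc]
      simp [← hu]
    · rw [Fin.sum_univ_castSucc]
      have h3 := hs2 i
      simp only at h3
      simp only [Fin.lastCases_castSucc, Fin.lastCases_last]
      rw [← h3]
      ring

theorem Kos.reg {R : Type} [CommRing R] {r : ℕ} (H : Fin (r + 1) → R) (hK : Kos H) (f : R)
    (hf : f * H (Fin.last r) ∈ Ideal.span (Set.range fun i : Fin r => H i.castSucc)) :
    f ∈ Ideal.span (Set.range fun i : Fin r => H i.castSucc) := by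
  obtain ⟨g, hg⟩ := Ideal.mem_span_range_iff_exists_fun.1 hf
  obtain ⟨s, hs0, hs1, hs2⟩ := hK (fun i => Fin.lastCases (motive := fun _ => R) f (fun i => -g i) i) (by
    rw [Fin.sum_univ_castSucc]
    simp only [Fin.lastCases_castSucc, Fin.lastCases_last]
    rw [← hg, ← Finset.sum_add_distrib]
    refine Finset.sum_eq_zero fun i _ => ?_
    ring)
  have h1 := hs2 (Fin.last r)
  simp only [Fin.lastCases_last] at h1
  rw [Fin.sum_univ_castSucc, hs0, zero_mul, add_zero] at h1
  exact Ideal.mem_span_range_iff_exists_fun.2 ⟨fun i => s (Fin.last r) i.castSucc, h1.symm⟩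

end T1
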