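import Pool.Agent.Lib.MP_23b606_ag.T1.Z.KosA

/-! Z/Syz: consequences of the Koszul property for the inhomogeneous system `H - t`. -/

set_option autoImplicit false

open MvPolynomial

namespace T1

section Syz

variable {k : Type} [Field k] {σ : Type}

/-- The component of degree `n - d` (`0` if `n < d`). -/
noncomputable def Syz_cs (n d : ℕ) : MvPolynomial σ k →ₗ[k] MvPolynomial σ k :=
  if d ≤ n then homogeneousComponent (n - d) else 0

theorem Syz_cs_le {n d : ℕ} (h : d ≤ n) (p : MvPolynomial σ k) :
    Syz_cs n d p = homogeneousComponent (n - d) p := by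
  rw [Syz_cs, if_pos h]

theorem Syz_cs_lt {n d : ℕ} (h : n < d) (p : MvPolynomial σ k) : Syz_cs n d p = 0 := by
  rw [Syz_cs, if_neg (not_le.2 h)]
  rfl

/-- The components of a component. -/
theorem Syz_comp_cs (n d e : ℕ) (p : MvPolynomial σ k) :
    homogeneousComponent e (Syz_cs n d p) = if e + d = n then Syz_cs n d p else 0 := by
  by_cases h : d ≤ n
  · rw [Syz_cs_le h, homogeneousComponent_of_mem (homogeneousComponent_mem (n - d) p)]
    by_cases h1 : e + d = n
    · rw [if_pos (by omega), if_pos h1]
    · rw [if_neg (by omega), if_neg h1]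
  · rw [Syz_cs_lt (not_le.1 h), map_zero, if_neg (by omega)]

/-- The component of a product with a homogeneous polynomial. -/
theorem Syz_comp_mul {d : ℕ} {H : MvPolynomial σ k} (hH : H.IsHomogeneous d)
    (p : MvPolynomial σ k) (n : ℕ) :
    homogeneousComponent n (p * H) = Syz_cs n d p * H := by
  have h1 : ∀ i, homogeneousComponent n (homogeneousComponent i p * H) =
      if n = i + d then homogeneousComponent i p * H else 0 := fun i =>
    homogeneousComponent_of_mem ((homogeneousComponent_isHomogeneous i p).mul hH)
  have h2 : homogeneousComponent n (p * H) =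
      ∑ i ∈ Finset.range (p.totalDegree + 1),
        if n = i + d then homogeneousComponent i p * H else 0 := by
    conv_lhs => rw [← sum_homogeneousComponent p, Finset.sum_mul, map_sum]
    exact Finset.sum_congr rfl fun i _ => h1 i
  rw [h2]
  by_cases h : d ≤ n
  · rw [Syz_cs_le h]
    by_cases h3 : n - d ≤ p.totalDegree
    · rw [Finset.sum_eq_single (n - d)]
      · rw [if_pos (by omega)]
      · intro i _ hi
        rw [if_neg (by omega)]
      · intro hi
        exact absurd (Finset.mem_range.2 (by omega)) hi
    · rw [homogeneousComponent_eq_zero (n - d) p (by omega), zero_mul]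
      refine Finset.sum_eq_zero fun i hi => ?_
      rw [Finset.mem_range] at hi
      rw [if_neg (by omega)]
  · rw [Syz_cs_lt (not_le.1 h), zero_mul]
    refine Finset.sum_eq_zero fun i _ => ?_
    rw [if_neg (by omega)]

/-- Polynomials with only components of degree smaller than `n - δ`. -/
def Syz_B (n δ : ℕ) (g : MvPolynomial σ k) : Prop :=
  ∀ d, n < d + δ → homogeneousComponent d g = 0

theorem Syz_B_of_deg {n δ : ℕ} {g : MvPolynomial σ k} (h : g ≠ 0 → g.totalDegree + δ ≤ n) :
    Syz_B n δ g := by
  intro d hd
  by_cases hg : g = 0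
  · rw [hg, map_zero]
  · exact homogeneousComponent_eq_zero d g (by have := h hg; omega)

theorem Syz_deg_of_B {n δ : ℕ} {g : MvPolynomial σ k} (h : Syz_B n δ g) (hg : g ≠ 0) :
    g.totalDegree + δ ≤ n := by
  by_contra h1
  have h2 := h g.totalDegree (by omega)
  obtain ⟨d, hd, hd1⟩ := Finset.exists_mem_eq_sup g.support (support_nonempty.2 hg)
    fun s => s.sum fun _ e => e
  have h3 : d.degree = g.totalDegree := hd1.symm
  have h4 := coeff_homogeneousComponent g.totalDegree g d
  rw [h2, if_pos h3, coeff_zero] at h4
  exact (mem_support_iff.1 hd) h4.symm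

/-- The top component of a combination of the `H - t`. -/
theorem Syz_top {r : ℕ} {H : Fin r → MvPolynomial σ k} {δ : Fin r → ℕ} (hδ : ∀ i, 1 ≤ δ i)
    (hH : ∀ i, (H i).IsHomogeneous (δ i)) (t : Fin r → k) (D : ℕ)
    {g : Fin r → MvPolynomial σ k} (hg : ∀ i, Syz_B D (δ i) (g i)) :
    homogeneousComponent D (∑ i, g i * (H i - C (t i))) = ∑ i, Syz_cs D (δ i) (g i) * H i := by
  rw [map_sum]
  refine Finset.sum_congr rfl fun i _ => ?_
  rw [mul_sub, map_sub, Syz_comp_mul (hH i), mul_comm (g i) (C (t i)),
    homogeneousComponent_C_mul, hg i D (by have := hδ i; omega), mul_zero, sub_zero]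

/-- Homogeneous coefficients for a homogeneous combination. -/
theorem Syz_hom {r : ℕ} {H : Fin r → MvPolynomial σ k} {δ : Fin r → ℕ}
    (hH : ∀ i, (H i).IsHomogeneous (δ i)) (e : ℕ) {p : MvPolynomial σ k}
    (hp : homogeneousComponent e p = p) {u : Fin r → MvPolynomial σ k}
    (hu : p = ∑ i, u i * H i) : p = ∑ i, Syz_cs e (δ i) (u i) * H i := by
  conv_lhs => rw [← hp, hu]
  rw [map_sum]
  exact Finset.sum_congr rfl fun i _ => Syz_comp_mul (hH i) _ _

/-- An alternating combination is zero. -/
theorem Syz_alt {R : Type} [CommRing R] {r : ℕ} (s : Fin r → Fin r → R) (h0 : ∀ i, s i i = 0)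
    (h1 : ∀ i j, s i j = -s j i) (a : Fin r → R) : ∑ i, (∑ j, s i j * a j) * a i = 0 := by
  have h2 : ∑ i, (∑ j, s i j * a j) * a i =
      ∑ x : Fin r × Fin r, s x.1 x.2 * a x.2 * a x.1 := by
    rw [Fintype.sum_prod_type]
    exact Finset.sum_congr rfl fun i _ => by rw [Finset.sum_mul]
  rw [h2]
  refine Finset.sum_involution (fun x _ => (x.2, x.1)) ?_ ?_ ?_ ?_
  · intro x _
    simp only
    rw [h1 x.1 x.2]
    ring
  · intro x _ hx h3
    apply hx
    have h4 : x.2 = x.1 := congrArg Prod.fst h3
    rw [h4, h0, zero_mul, zero_mul]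
  · intro x _
    exact Finset.mem_univ _
  · intro x _
    rfl

/-- The descent step. -/
theorem Syz_step {r : ℕ} (H : Fin r → MvPolynomial σ k)
    (δ : Fin r → ℕ) (hδ : ∀ i, 1 ≤ δ i) (hH : ∀ i, (H i).IsHomogeneous (δ i)) (hK : Kos H)
    (t : Fin r → k) (D : ℕ) {g : Fin r → MvPolynomial σ k} (hg : ∀ i, Syz_B (D + 1) (δ i) (g i))
    (h0 : homogeneousComponent (D + 1) (∑ i, g i * (H i - C (t i))) = 0) :
    ∃ g' : Fin r → MvPolynomial σ k,
      ∑ i, g' i * (H i - C (t i)) = ∑ i, g i * (H i - C (t i)) ∧
        ∀ i, Syz_B D (δ i) (g' i) := by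
  rw [Syz_top hδ hH t (D + 1) hg] at h0
  obtain ⟨s, hs0, hs1, hs2⟩ := hK _ h0
  set s' : Fin r → Fin r → MvPolynomial σ k := fun i j => Syz_cs (D + 1) (δ i + δ j) (s i j)
    with hs'
  have h1 : ∀ i, Syz_cs (D + 1) (δ i) (g i) = ∑ j, s' i j * H j := by
    intro i
    by_cases h : δ i ≤ D + 1
    · have h2 : homogeneousComponent (D + 1 - δ i) (Syz_cs (D + 1) (δ i) (g i)) =
          Syz_cs (D + 1) (δ i) (g i) := by
        rw [Syz_comp_cs, if_pos (by omega)]
      rw [Syz_hom hH (D + 1 - δ i) h2 (hs2 i)]
      refine Finset.sum_congr rfl fun j _ => ?_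
      congr 1
      simp only [hs']
      by_cases h3 : δ j ≤ D + 1 - δ i
      · rw [Syz_cs_le h3, Syz_cs_le (by omega)]
        congr 2
        omega
      · rw [Syz_cs_lt (by omega), Syz_cs_lt (by omega)]
    · rw [Syz_cs_lt (by omega)]
      symm
      refine Finset.sum_eq_zero fun j _ => ?_
      simp only [hs']
      rw [Syz_cs_lt (by omega), zero_mul]
  refine ⟨fun i => g i - ∑ j, s' i j * (H j - C (t j)), ?_, ?_⟩
  · have h2 : ∑ i, (∑ j, s' i j * (H j - C (t j))) * (H i - C (t i)) = 0 := by
      refine Syz_alt s' (fun i => ?_) (fun i j => ?_) _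
      · simp only [hs', hs0, map_zero]
      · simp only [hs']
        rw [hs1 i j, map_neg, add_comm (δ j) (δ i)]
    simp only [sub_mul]
    rw [Finset.sum_sub_distrib, h2, sub_zero]
  · intro i d hd
    simp only
    rw [map_sub, map_sum]
    have h3 : ∀ j, homogeneousComponent d (s' i j * (H j - C (t j))) =
        if d + δ i = D + 1 then s' i j * H j else 0 := by
      intro j
      have h4 : homogeneousComponent d (s' i j) = 0 := by
        simp only [hs']
        rw [Syz_comp_cs, if_neg (by have := hδ j; omega)]
      rw [mul_sub, map_sub, mul_comm (s' i j) (C (t j)), homogeneousComponent_C_mul, h4,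
        mul_zero, sub_zero]
      have h5 : s' i j * H j ∈ homogeneousSubmodule σ k d ∨ d + δ i ≠ D + 1 := by
        by_cases h6 : d + δ i = D + 1
        · left
          by_cases h7 : δ i + δ j ≤ D + 1
          · have h8 := (homogeneousComponent_isHomogeneous (D + 1 - (δ i + δ j)) (s i j)).mul (hH j)
            simp only [hs']
            rw [Syz_cs_le h7]
            have h9 : D + 1 - (δ i + δ j) + δ j = d := by omega
            rw [h9] at h8
            exact h8
          · simp only [hs']
            rw [Syz_cs_lt (by omega), zero_mul]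
            exact Submodule.zero_mem _
        · exact Or.inr h6
      by_cases h6 : d + δ i = D + 1
      · rw [if_pos h6]
        rcases h5 with h5 | h5
        · rw [homogeneousComponent_of_mem h5, if_pos rfl]
        · exact absurd h6 h5
      · rw [if_neg h6, Syz_comp_mul (hH j)]
        have h7 : Syz_cs d (δ j) (s' i j) = 0 := by
          by_cases h8 : δ j ≤ d
          · rw [Syz_cs_le h8]
            simp only [hs']
            rw [Syz_comp_cs, if_neg (by omega)]
          · exact Syz_cs_lt (by omega) _
        rw [h7, zero_mul]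
    simp only [h3]
    by_cases h6 : d + δ i = D + 1
    · simp only [if_pos h6]
      rw [← h1 i, Syz_cs_le (by omega)]
      have h7 : D + 1 - δ i = d := by omega
      rw [h7, sub_self]
    · simp only [if_neg h6, Finset.sum_const_zero, sub_zero]
      exact hg i d (by omega)

end Syz

theorem syz_deg {k : Type} [Field k] {σ : Type} {r : ℕ} (H : Fin r → MvPolynomial σ k)
    (δ : Fin r → ℕ) (hδ : ∀ i, 1 ≤ δ i) (hH : ∀ i, (H i).IsHomogeneous (δ i)) (hK : Kos H)
    (t : Fin r → k) (m : ℕ) (f : MvPolynomial σ k)
    (hf : f ∈ Ideal.span (Set.range fun i => H i - C (t i))) (hm : f.totalDegree ≤ m) :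
    ∃ g : Fin r → MvPolynomial σ k, f = ∑ i, g i * (H i - C (t i)) ∧
      ∀ i, g i ≠ 0 → (g i).totalDegree + δ i ≤ m := by
  obtain ⟨g0, hg0⟩ := Ideal.mem_span_range_iff_exists_fun.1 hf
  have key : ∀ D (g : Fin r → MvPolynomial σ k), f = ∑ i, g i * (H i - C (t i)) →
      (∀ i, Syz_B (m + D) (δ i) (g i)) → ∃ g' : Fin r → MvPolynomial σ k,
        f = ∑ i, g' i * (H i - C (t i)) ∧ ∀ i, Syz_B m (δ i) (g' i) := by
    intro D
    induction D with
    | zero => exact fun g h1 h2 => ⟨g, h1, h2⟩
    | succ D ih =>
      intro g h1 h2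
      have h3 : homogeneousComponent (m + D + 1) (∑ i, g i * (H i - C (t i))) = 0 := by
        rw [← h1]
        exact homogeneousComponent_eq_zero _ _ (by omega)
      obtain ⟨g', h4, h5⟩ := Syz_step H δ hδ hH hK t (m + D) h2 h3
      exact ih g' (h1.trans h4.symm) h5
  obtain ⟨g, h1, h2⟩ := key (∑ i, ((g0 i).totalDegree + δ i)) g0 hg0.symm (by
    intro i
    refine Syz_B_of_deg fun _ => ?_
    have h3 : (g0 i).totalDegree + δ i ≤ ∑ i, ((g0 i).totalDegree + δ i) :=
      Finset.single_le_sum (f := fun i => (g0 i).totalDegree + δ i) (fun _ _ => Nat.zero_le _)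
        (Finset.mem_univ i)
    omega)
  exact ⟨g, h1, fun i hi => Syz_deg_of_B (h2 i) hi⟩

theorem syz_reg {k : Type} [Field k] {σ : Type} {r : ℕ} (H : Fin (r + 1) → MvPolynomial σ k)
    (δ : Fin (r + 1) → ℕ) (hδ : ∀ i, 1 ≤ δ i) (hH : ∀ i, (H i).IsHomogeneous (δ i)) (hK : Kos H)
    (hK' : Kos fun i : Fin r => H i.castSucc) (t : Fin (r + 1) → k) (f : MvPolynomial σ k)
    (hf : f * (H (Fin.last r) - C (t (Fin.last r))) ∈
      Ideal.span (Set.range fun i : Fin r => H i.castSucc - C (t i.castSucc))) :
    f ∈ Ideal.span (Set.range fun i : Fin r => H i.castSucc - C (t i.castSucc)) := by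
  have key : ∀ n (f : MvPolynomial σ k), Syz_B n 1 f →
      f * (H (Fin.last r) - C (t (Fin.last r))) ∈
        Ideal.span (Set.range fun i : Fin r => H i.castSucc - C (t i.castSucc)) →
      f ∈ Ideal.span (Set.range fun i : Fin r => H i.castSucc - C (t i.castSucc)) := by
    intro n
    induction n with
    | zero =>
      intro f h1 _
      have h2 : f = 0 := by
        by_contra h3
        have := Syz_deg_of_B h1 h3
        omega
      rw [h2]
      exact Ideal.zero_mem _
    | succ n ih =>
      intro f h1 h2
      have hl := hδ (Fin.last r)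
      have h3 : (f * (H (Fin.last r) - C (t (Fin.last r)))).totalDegree ≤
          n + δ (Fin.last r) := by
        by_cases hf0 : f = 0
        · rw [hf0, zero_mul, totalDegree_zero]
          exact Nat.zero_le _
        · have h4 := Syz_deg_of_B h1 hf0
          have h5 : (H (Fin.last r) - C (t (Fin.last r))).totalDegree ≤ δ (Fin.last r) :=
            (totalDegree_sub_C_le _ _).trans (hH _).totalDegree_le
          have h6 := totalDegree_mul f (H (Fin.last r) - C (t (Fin.last r)))
          omega
      obtain ⟨g, h4, h5⟩ := syz_deg (fun i : Fin r => H i.castSucc) (fun i => δ i.castSucc)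
        (fun i => hδ _) (fun i => hH _) hK' (fun i => t i.castSucc) _ _ h2 h3
      have h6 : homogeneousComponent n f * H (Fin.last r) =
          ∑ i : Fin r, Syz_cs (n + δ (Fin.last r)) (δ i.castSucc) (g i) * H i.castSucc := by
        rw [← Syz_top (H := fun i : Fin r => H i.castSucc) (fun i => hδ _) (fun i => hH _)
          (fun i => t i.castSucc) (n + δ (Fin.last r)) (fun i => Syz_B_of_deg (h5 i)), ← h4,
          mul_sub, map_sub, Syz_comp_mul (hH _), mul_comm f (C _), homogeneousComponent_C_mul,
          h1 (n + δ (Fin.last r)) (by omega), mul_zero, sub_zero, Syz_cs_le (by omega),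
          Nat.add_sub_cancel]
      have h7 : homogeneousComponent n f ∈
          Ideal.span (Set.range fun i : Fin r => H i.castSucc) := by
        refine Kos.reg H hK _ ?_
        rw [h6]
        exact Ideal.sum_mem _ fun i _ => Ideal.mul_mem_left _ _ (Ideal.subset_span ⟨i, rfl⟩)
      obtain ⟨u, hu⟩ := Ideal.mem_span_range_iff_exists_fun.1 h7
      have h8 : homogeneousComponent n (homogeneousComponent n f) = homogeneousComponent n f :=
        homogeneousComponent_eq_self (homogeneousComponent_isHomogeneous n f)
      have h9 := Syz_hom (H := fun i : Fin r => H i.castSucc) (δ := fun i => δ i.castSucc)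
        (fun i => hH _) n h8 hu.symm
      set v : Fin r → MvPolynomial σ k := fun i => Syz_cs n (δ i.castSucc) (u i) with hv
      have hmem : ∑ i, v i * (H i.castSucc - C (t i.castSucc)) ∈
          Ideal.span (Set.range fun i : Fin r => H i.castSucc - C (t i.castSucc)) :=
        Ideal.sum_mem _ fun i _ => Ideal.mul_mem_left _ _ (Ideal.subset_span ⟨i, rfl⟩)
      have h10 : f - ∑ i, v i * (H i.castSucc - C (t i.castSucc)) ∈
          Ideal.span (Set.range fun i : Fin r => H i.castSucc - C (t i.castSucc)) := by
        refine ih _ ?_ ?_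
        · intro d hd
          rw [map_sub, map_sum]
          have h11 : ∀ i : Fin r,
              homogeneousComponent d (v i * (H i.castSucc - C (t i.castSucc))) =
                if d = n then v i * H i.castSucc else 0 := by
            intro i
            have h12 : homogeneousComponent d (v i) = 0 := by
              simp only [hv]
              rw [Syz_comp_cs, if_neg (by have := hδ i.castSucc; omega)]
            rw [mul_sub, map_sub, mul_comm (v i) (C _), homogeneousComponent_C_mul, h12,
              mul_zero, sub_zero, Syz_comp_mul (hH _)]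
            have h13 : Syz_cs d (δ i.castSucc) (v i) = if d = n then v i else 0 := by
              by_cases h14 : δ i.castSucc ≤ d
              · rw [Syz_cs_le h14]
                simp only [hv]
                rw [Syz_comp_cs]
                by_cases h15 : d = n
                · rw [if_pos h15, if_pos (by omega)]
                · rw [if_neg h15, if_neg (by omega)]
              · rw [Syz_cs_lt (by omega)]
                by_cases h15 : d = n
                · rw [if_pos h15]
                  simp only [hv]
                  rw [Syz_cs_lt (by omega)]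
                · rw [if_neg h15]
            rw [h13]
            by_cases h15 : d = n
            · rw [if_pos h15, if_pos h15]
            · rw [if_neg h15, if_neg h15, zero_mul]
          simp only [h11]
          by_cases h15 : d = n
          · simp only [if_pos h15]
            rw [h15, ← h9, sub_self]
          · simp only [if_neg h15, Finset.sum_const_zero, sub_zero]
            exact h1 d (by omega)
        · rw [sub_mul]
          exact Ideal.sub_mem _ h2 (Ideal.mul_mem_right _ _ hmem)
      have h16 := Ideal.add_mem _ h10 hmem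
      rwa [sub_add_cancel] at h16
  exact key (f.totalDegree + 1) f (Syz_B_of_deg fun _ => le_rfl) hf

end T1
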